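import Pool.Agent.J6H54.RO.Scheme
import Pool.Agent.H628R3.RO.M4

/-!
# The three instances of the key inequality
-/

set_option autoImplicit false

namespace Pool.Agent.J6H54.RO

open MeasureTheory Filter Pool.Agent.NPC Pool.Agent.H628R3.RO

theorem poly_bound (p : Polynomial ℕ) : ∃ C d : ℕ, 1 ≤ C ∧ 1 ≤ d ∧
    ∀ x, p.eval x ≤ C * (x + 1) ^ d := by
  refine ⟨(∑ i ∈ Finset.range (p.natDegree + 1), p.coeff i) + 1, p.natDegree + 1, by omega,
    by omega, fun x => ?_⟩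
  rw [Polynomial.eval_eq_sum_range, add_mul, Finset.sum_mul]
  refine le_trans (Finset.sum_le_sum fun i hi => Nat.mul_le_mul_left _ ?_) (Nat.le_add_right _ _)
  rw [Finset.mem_range] at hi
  calc x ^ i ≤ (x + 1) ^ i := Nat.pow_le_pow_left (by omega) _
    _ ≤ (x + 1) ^ (p.natDegree + 1) := Nat.pow_le_pow_right (by omega) (by omega)

theorem poly_le_two_pow (p : Polynomial ℕ) : ∃ N, ∀ n ≥ N, 32 * p.eval n ≤ 2 ^ n := by
  obtain ⟨C, d, hC, hd, h⟩ := poly_bound p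
  have h1 : (fun n : ℕ => ((n : ℝ)) ^ (d : ℕ)) =o[atTop] fun n : ℕ => (2 : ℝ) ^ n :=
    isLittleO_pow_const_const_pow_of_one_lt d (by norm_num)
  have hc : (0 : ℝ) < 1 / (64 * C) := by
    have : (0 : ℝ) < C := by exact_mod_cast hC
    positivity
  have h2 := h1.bound hc
  obtain ⟨N, hN⟩ := eventually_atTop.1 h2
  refine ⟨N, fun n hn => ?_⟩
  have h3 := hN (n + 1) (by omega)
  rw [Real.norm_of_nonneg (by positivity), Real.norm_of_nonneg (by positivity)] at h3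
  have hC' : (0 : ℝ) < 64 * C := by
    have : (0 : ℝ) < C := by exact_mod_cast hC
    positivity
  rw [one_div, ← div_eq_inv_mul, le_div_iff₀ hC'] at h3
  have h4 : (n + 1) ^ d * (64 * C) ≤ 2 ^ (n + 1) := by
    have : (((n + 1) ^ d * (64 * C) : ℕ) : ℝ) ≤ ((2 ^ (n + 1) : ℕ) : ℝ) := by
      push_cast
      push_cast at h3
      exact h3
    exact_mod_cast this
  have h5 := h n
  have h6 : 2 ^ (n + 1) = 2 * 2 ^ n := by ring
  nlinarith

/-- the candidates asked about -/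
theorem touched (m : ℕ) (W : Finset Cand) (Q : Finset (List Bool)) :
    ∃ T : Finset Cand, T.card ≤ Q.card ∧ ∀ h ⊆ W, Disjoint h T → ∀ B : Oracle, ∀ q ∈ Q,
      plant (allSpots m h) B q = B q := by
  classical
  refine ⟨W.filter (fun κ => ∃ x ∈ Q, x ∈ spots m κ), ?_, ?_⟩
  · have hch : ∀ κ ∈ W.filter (fun κ => ∃ x ∈ Q, x ∈ spots m κ), ∃ x ∈ Q, x ∈ spots m κ :=
      fun κ hκ => (Finset.mem_filter.1 hκ).2
    choose! f hf1 hf2 using hch
    refine Finset.card_le_card_of_injOn f (fun κ hκ => hf1 κ hκ) ?_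
    intro κ hκ κ' hκ' hff
    have h1 := hf2 κ hκ
    have h2 := hf2 κ' hκ'
    rw [← hff] at h2
    exact M2.spots_disjoint h1 h2
  · intro h hh hd B q hq
    unfold plant
    rw [if_neg]
    intro hq'
    obtain ⟨κ, hκ, hκ'⟩ := M2.mem_allSpots.1 hq'
    exact (Finset.disjoint_left.1 hd hκ) (Finset.mem_filter.2 ⟨hh hκ, q, hq, hκ'⟩)

theorem card_blkT (n : ℕ) : (blkT n).card = 2 ^ n := by
  unfold blkT
  rw [card_cands, Finset.card_singleton, one_mul]

theorem card_blkS (n j : ℕ) : (blkS n j).card = j * 2 ^ n := by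
  unfold blkS
  rw [card_cands, Finset.card_range]

theorem exists_exponent (p : Polynomial ℕ) : ∃ k ≥ 1, ∃ N, ∀ n ≥ N, ∀ x : ℕ, x ^ k ≤ 2 ^ n →
    32 * p.eval x ≤ 2 ^ n := by
  obtain ⟨C, d, hC, hd, h⟩ := poly_bound p
  obtain ⟨N, hN⟩ : ∃ N, 1024 * C ^ 2 * 4 ^ d ≤ 2 ^ N := ⟨_, Nat.lt_two_pow_self.le⟩
  refine ⟨2 * d, by omega, N, fun n hn x hx => ?_⟩
  have h1 := h x
  have h2 : (32 * p.eval x) ^ 2 ≤ (2 ^ n) ^ 2 := by
    have h3 : 1024 * C ^ 2 * 4 ^ d ≤ 2 ^ n := hN.trans (Nat.pow_le_pow_right (by norm_num) hn)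
    have h4 : (x + 1) ^ (2 * d) ≤ 4 ^ d * 2 ^ n := by
      rcases Nat.eq_zero_or_pos x with rfl | hx0
      · simp only [zero_add, one_pow]
        exact Nat.mul_pos (by positivity) (by positivity)
      · calc (x + 1) ^ (2 * d) ≤ (2 * x) ^ (2 * d) := Nat.pow_le_pow_left (by omega) _
          _ = 4 ^ d * x ^ (2 * d) := by
              rw [mul_pow, pow_mul 2 2 d]
              norm_num
          _ ≤ 4 ^ d * 2 ^ n := Nat.mul_le_mul_left _ hx
    calc (32 * p.eval x) ^ 2 ≤ (32 * (C * (x + 1) ^ d)) ^ 2 :=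
          Nat.pow_le_pow_left (Nat.mul_le_mul_left _ h1) _
      _ = 1024 * C ^ 2 * (x + 1) ^ (2 * d) := by ring
      _ ≤ 1024 * C ^ 2 * (4 ^ d * 2 ^ n) := Nat.mul_le_mul_left _ h4
      _ = (1024 * C ^ 2 * 4 ^ d) * 2 ^ n := by ring
      _ ≤ 2 ^ n * 2 ^ n := Nat.mul_le_mul_right _ h3
      _ = (2 ^ n) ^ 2 := by ring
  exact (Nat.pow_le_pow_iff_left (by norm_num)).1 h2

theorem exists_radius {S S' : Set Oracle} {r r' : ℕ} (h : Loc {x | x.length ≤ r} S)
    (h' : Loc {x | x.length ≤ r'} S') (n t : ℕ) (L : List (List Bool)) :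
    ∃ R : ℕ, Loc {x | x.length ≤ R} S ∧ Loc {x | x.length ≤ R} S' ∧
      Loc {x | x.length ≤ R} (cyl t L) ∧ 3 * n + 2 ≤ R := by
  refine ⟨r + r' + t + (3 * n + 2), M2.Loc.mono h ?_, M2.Loc.mono h' ?_,
    M2.Loc.mono (loc_cyl t L) ?_, by omega⟩
  all_goals
    intro x hx
    simp only [Set.mem_ofPred_eq] at hx ⊢
    omega

theorem plant_cyl {t n : ℕ} {L : List (List Bool)} (ht : t < n) {J : Finset (List Bool)}
    (hJ : ∀ x ∈ J, n < x.length) (B : Oracle) : plant J B ∈ cyl t L ↔ B ∈ cyl t L := by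
  apply loc_cyl t L
  intro x hx
  simp only [Set.mem_ofPred_eq] at hx
  unfold plant
  rw [if_neg]
  intro hx'
  have := hJ x hx'
  omega

theorem allSpots_mono (m : ℕ) {h W : Finset Cand} (hh : h ⊆ W) : allSpots m h ⊆ allSpots m W := by
  intro x hx
  obtain ⟨κ, hκ, h1⟩ := M2.mem_allSpots.1 hx
  exact M2.mem_allSpots.2 ⟨κ, hh hκ, h1⟩

/-- The key inequality for statements that there is no hit. -/
theorem key_T (M : Alg) : ∃ k ≥ 1, ∃ N, ∀ n ≥ N, ∀ j ≤ n, ∀ (t : ℕ) (L : List (List Bool)), t < n →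
    4 * prob (cyl t L ∩ (BadT n j ∩ ErrP M n j)) < prob (cyl t L ∩ BadT n j) →
    prob (cyl t L ∩ GoodT M k n j ∩ (BadT n j)ᶜ) ≤ 5 / 16 * prob (cyl t L) := by
  obtain ⟨k, hk, N, hN⟩ := exists_exponent M.p
  obtain ⟨qb, hq⟩ := M.out_local
  obtain ⟨b1, hb1⟩ := loc_ErrP M
  obtain ⟨b2, hb2⟩ := loc_GoodT M hk
  refine ⟨k, hk, N + 1, fun n hn j hj t L ht hchk => ?_⟩
  obtain ⟨R, hZ, hE, hτ, hR⟩ := exists_radius (hb2 n j) (hb1 n j) n t L
  set τ := cyl t L with hτdef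
  set β := prob (BadT n j) with hβ
  have hcard := card_blkT n
  have hkt := key_taut (finite_length_le R) hZ hE hτ (blkT n) (m := n + j) (by omega)
    (2 ^ n / 32) (fun κ hκ i hi => by
      have hmem : pos κ.1 i κ.2 ∈ spotsT n j := mem_allSpots.2 ⟨κ, hκ, i, hi, rfl⟩
      have := length_le_spotsT hj _ hmem
      simp only [Set.mem_ofPred_eq]
      omega)
    (fun B h hh => plant_cyl ht (fun x hx =>
      lt_length_spotsT (n := n) (j := j) x (allSpots_mono _ hh hx)) B)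
    (by
      rintro B - ⟨u, hu, hout⟩
      obtain ⟨Q, hQ1, -, hQ3⟩ := hq B u
      obtain ⟨T, hT1, hT2⟩ := touched (n + j) (blkT n) Q
      refine ⟨T, ?_, fun h hh _ hd => ⟨u, ?_, ?_⟩⟩
      · have h1 := hN n (by omega) _ hu
        omega
      · exact (Nat.le_self_pow (by omega) _).trans hu
      · rw [hQ3 _ (hT2 h hh hd B), hout])
  rw [hcard] at hkt
  have hβ' : 1 - (1 - (1 / 2 : ℝ) ^ (n + j)) ^ (2 ^ n) = β := (prob_BadT n j).symm
  rw [hβ'] at hkt
  have hbad : (NoHit (n + j) (blkT n))ᶜ = BadT n j := rfl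
  have hbad' : NoHit (n + j) (blkT n) = (BadT n j)ᶜ := by rw [← hbad, compl_compl]
  rw [hbad, hbad'] at hkt
  have hβpos : 0 < β := by
    obtain ⟨c, hc, hc'⟩ := prob_BadT_ge j
    exact hc.trans_le (hc' n (by omega))
  have hβge : (1 / 2 : ℝ) ^ (j + 1) ≤ β := by
    rw [hβ, prob_BadT]
    exact taut_ge n j
  have hind : prob (τ ∩ BadT n j) = prob τ * β := by
    refine prob_inter_of_disjoint (finite_length_le t)
      (K' := (spotsT n j : Set (List Bool))) (spotsT n j).finite_toSet ?_ (loc_cyl t L)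
      (loc_BadT n j)
    rw [Set.disjoint_left]
    intro x hx hx'
    have := lt_length_spotsT x hx'
    simp only [Set.mem_ofPred_eq] at hx
    omega
  rw [hind] at hchk
  have hτ0 : 0 ≤ prob τ := M2.prob_nonneg _
  have hE' : prob (ErrP M n j ∩ τ ∩ BadT n j) ≤ prob τ * β / 4 := by
    have : ErrP M n j ∩ τ ∩ BadT n j = τ ∩ (BadT n j ∩ ErrP M n j) := by
      ext A
      simp only [Set.mem_inter_iff]
      tauto
    rw [this]
    linarith
  have ht' : ((2 ^ n / 32 : ℕ) : ℝ) * (1 / 2) ^ (n + j) ≤ β / 16 := by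
    have h1 : ((2 ^ n / 32 : ℕ) : ℝ) ≤ 2 ^ n / 32 := by
      have := @Nat.cast_div_le ℝ _ _ _ (2 ^ n) 32
      push_cast at this
      exact this
    have h2 : (2 : ℝ) ^ n * (1 / 2) ^ (n + j) = (1 / 2) ^ j := by
      rw [pow_add, ← mul_assoc, ← mul_pow]
      norm_num
    have h3 : (1 / 2 : ℝ) ^ (j + 1) = (1 / 2) ^ j / 2 := by rw [pow_succ]; ring
    calc ((2 ^ n / 32 : ℕ) : ℝ) * (1 / 2) ^ (n + j) ≤ 2 ^ n / 32 * (1 / 2) ^ (n + j) :=
          mul_le_mul_of_nonneg_right h1 (by positivity)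
      _ = (1 / 2) ^ j / 32 := by rw [← h2]; ring
      _ ≤ β / 16 := by linarith
  have hq1 : (1 - (1 / 2 : ℝ) ^ (n + j)) ^ (2 ^ n) ≤ 1 :=
    pow_le_one₀ (by linarith [half_pow_le_one (n + j)])
      (by have : (0 : ℝ) < (1 / 2) ^ (n + j) := by positivity
          linarith)
  have hmain : prob (GoodT M k n j ∩ τ ∩ (BadT n j)ᶜ) * β ≤ (5 / 16 * prob τ) * β := by
    refine hkt.trans ?_
    have h1 : 0 ≤ prob (ErrP M n j ∩ τ ∩ BadT n j) +
        ((2 ^ n / 32 : ℕ) : ℝ) * (1 / 2) ^ (n + j) * prob τ := by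
      have := M2.prob_nonneg (ErrP M n j ∩ τ ∩ BadT n j)
      positivity
    refine (mul_le_of_le_one_right h1 hq1).trans ?_
    have h2 := mul_le_mul_of_nonneg_right ht' hτ0
    nlinarith
  have h1 := le_of_mul_le_mul_right hmain hβpos
  rwa [Set.inter_comm (GoodT M k n j)] at h1

/-- The key inequality for statements that there is a hit, general form. -/
theorem key_S_gen {Z E : Set Oracle} {rZ rE : ℕ} {n j t : ℕ} {L : List (List Bool)}
    (hZ : Loc {x | x.length ≤ rZ} Z) (hE : Loc {x | x.length ≤ rE} E) (hn : 1 ≤ n) (hj : j ≤ n)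
    (ht : t < n)
    (hkey : ∀ B ∈ BadS n j, B ∉ E → ∃ T : Finset Cand, T.card ≤ 2 ^ n / 16 ∧
      ∀ h ⊆ blkS n j, Disjoint h T → plant (allSpots n h) B ∉ Z)
    (hchk : 4 * prob (cyl t L ∩ (BadS n j ∩ E)) < prob (cyl t L ∩ BadS n j)) :
    prob (cyl t L ∩ Z ∩ (BadS n j)ᶜ) ≤ 5 / 16 * prob (cyl t L) := by
  obtain ⟨R, hZ, hE, hτ, hR⟩ := exists_radius hZ hE n t L
  set τ := cyl t L with hτdef
  set β := prob (BadS n j) with hβ
  have hcard := card_blkS n j
  have hkt := key_sat (finite_length_le R) hZ hE hτ (blkS n j) (m := n) hn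
    (2 ^ n / 16) (fun κ hκ i hi => by
      have hmem : pos κ.1 i κ.2 ∈ spotsS n j := mem_allSpots.2 ⟨κ, hκ, i, hi, rfl⟩
      have := length_le_spotsS hj _ hmem
      simp only [Set.mem_ofPred_eq]
      omega)
    (fun B h hh => plant_cyl ht (fun x hx =>
      lt_length_spotsS (n := n) (j := j) x (allSpots_mono _ hh hx)) B)
    hkey
  rw [hcard] at hkt
  have hβ' : (1 - (1 / 2 : ℝ) ^ n) ^ (j * 2 ^ n) = β := (prob_BadS n j).symm
  rw [hβ'] at hkt
  have hbad : NoHit n (blkS n j) = BadS n j := rfl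
  rw [hbad] at hkt
  have hβpos : 0 < β := by
    obtain ⟨c, hc, hc'⟩ := prob_BadS_ge j
    exact hc.trans_le (hc' n hn)
  have hind : prob (τ ∩ BadS n j) = prob τ * β := by
    refine prob_inter_of_disjoint (finite_length_le t)
      (K' := (spotsS n j : Set (List Bool))) (spotsS n j).finite_toSet ?_ (loc_cyl t L)
      (loc_BadS n j)
    rw [Set.disjoint_left]
    intro x hx hx'
    have := lt_length_spotsS x hx'
    simp only [Set.mem_ofPred_eq] at hx
    omega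
  rw [hind] at hkt hchk
  have hτ0 : 0 ≤ prob τ := M2.prob_nonneg _
  have hE' : prob (E ∩ τ ∩ BadS n j) ≤ prob τ * β / 4 := by
    have : E ∩ τ ∩ BadS n j = τ ∩ (BadS n j ∩ E) := by
      ext A
      simp only [Set.mem_inter_iff]
      tauto
    rw [this]
    linarith
  have ht' : ((2 ^ n / 16 : ℕ) : ℝ) * (1 / 2) ^ n ≤ 1 / 16 := by
    have h1 : ((2 ^ n / 16 : ℕ) : ℝ) ≤ 2 ^ n / 16 := by
      have := @Nat.cast_div_le ℝ _ _ _ (2 ^ n) 16
      push_cast at this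
      exact this
    have h2 : (2 : ℝ) ^ n * (1 / 2) ^ n = 1 := by
      rw [← mul_pow]
      norm_num
    calc ((2 ^ n / 16 : ℕ) : ℝ) * (1 / 2) ^ n ≤ 2 ^ n / 16 * (1 / 2) ^ n :=
          mul_le_mul_of_nonneg_right h1 (by positivity)
      _ = (2 ^ n * (1 / 2) ^ n) / 16 := by ring
      _ = 1 / 16 := by rw [h2]
  have hmain : prob (Z ∩ τ) * β ≤ (5 / 16 * prob τ) * β := by
    refine hkt.trans ?_
    have h2 : ((2 ^ n / 16 : ℕ) : ℝ) * (1 / 2) ^ n * (prob τ * β) ≤ 1 / 16 * (prob τ * β) :=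
      mul_le_mul_of_nonneg_right ht' (by positivity)
    nlinarith
  have h1 := le_of_mul_le_mul_right hmain hβpos
  refine le_trans (M2.prob_mono ?_) h1
  rintro A ⟨⟨h2, h3⟩, -⟩
  exact ⟨h3, h2⟩

end Pool.Agent.J6H54.RO
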