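import Pool.Agent.J6H54.RO.Scheme
import Pool.Agent.H628R3.RO.P3
import Pool.Agent.H628R3.RO.E1

/-!
# The levels are computable in polynomial time
-/

set_option autoImplicit false

namespace Pool.Agent.J6H54.RO

open MeasureTheory Filter Pool.Agent.NPC Pool.Agent.H628R3.RO

theorem min_cap {f : ℕ → ℕ} (hf : Monotone f) {c : ℕ} (hc : c ≤ f c) (x : ℕ) :
    min (f x) c = min (f (min x c)) c := by
  rcases le_total x c with h | h
  · rw [min_eq_left h]
  · rw [min_eq_right h, min_eq_right hc, min_eq_right (hc.trans (hf h))]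

section

variable {α : Type} [TEnc α]

theorem u_congr {m n : α → ℕ} (hm : UPoly m) (h : ∀ a, m a = n a) : UPoly n := by
  have : m = n := funext h
  rwa [← this]

theorem u_min {m n : α → ℕ} (hm : UPoly m) (hn : UPoly n) : UPoly (fun a => min (m a) (n a)) :=
  UPoly.of_le (Poly.min hm.toPoly hn.toPoly) hm fun _ => min_le_left _ _

theorem u_size {n : α → ℕ} (hn : Poly n) : UPoly (fun a => (n a).size) := by
  refine u_congr (UPoly.length (NPC.Poly.natBits hn)) fun a => ?_
  rw [Nat.size_eq_bits_len]

theorem u_cap_pow {l N : α → ℕ} (hl : UPoly l) (hN : UPoly N) :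
    UPoly (fun a => min (2 ^ (l a)) (N a + 1)) := by
  have h1 : UPoly (fun a => N a + 1) := UPoly.add hN (UPoly.const 1)
  have h2 : UPoly (fun a => (N a + 1).size) := u_size h1.toPoly
  have h3 : UPoly (fun a => min (l a) ((N a + 1).size)) := u_min hl h2
  have h4 : UPoly (fun a => 2 * (N a + 1)) := UPoly.mul (UPoly.const 2) h1
  have h5 : UPoly (fun a => 2 ^ (min (l a) ((N a + 1).size))) := by
    refine u_pow h3 h4 fun a => ?_
    have h6 : 2 ^ (min (l a) ((N a + 1).size)) ≤ 2 ^ ((N a + 1).size) :=
      Nat.pow_le_pow_right (by norm_num) (min_le_right _ _)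
    have h7 : 2 ^ ((N a + 1).size) ≤ 2 * (N a + 1) := by
      have h8 : 0 < (N a + 1).size := Nat.size_pos.2 (by omega)
      obtain ⟨k, hk⟩ : ∃ k, (N a + 1).size = k + 1 := ⟨(N a + 1).size - 1, by omega⟩
      rw [hk, pow_succ, mul_comm]
      apply Nat.mul_le_mul_left
      have h9 : k < (N a + 1).size := by omega
      exact Nat.lt_size.1 h9
    exact h6.trans h7
  refine u_congr (u_min h5 h1) fun a => ?_
  rcases le_total (l a) ((N a + 1).size) with h | h
  · rw [min_eq_left h]
  · rw [min_eq_right h]
    have h6 : N a + 1 ≤ 2 ^ ((N a + 1).size) := (Nat.lt_size_self _).le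
    have h7 : 2 ^ ((N a + 1).size) ≤ 2 ^ (l a) := Nat.pow_le_pow_right (by norm_num) h
    rw [min_eq_right h6, min_eq_right (h6.trans h7)]

theorem u_cap_Gt {b : Polynomial ℕ} (hb : ∀ m, m ≤ b.eval m) {m N : α → ℕ} (hm : UPoly m)
    (hN : UPoly N) : UPoly (fun a => min (Gt b (m a)) (N a + 1)) := by
  have h1 : UPoly (fun a => N a + 1) := UPoly.add hN (UPoly.const 1)
  have h2 := u_cap_pow hm hN
  have h3 : UPoly (fun a => b.eval (min (2 ^ (m a)) (N a + 1)) + 1) :=
    UPoly.add (UPoly.eval h2 b) (UPoly.const 1)
  have h4 := u_cap_pow h3 hN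
  have h5 := u_cap_pow h4 hN
  have h6 : UPoly (fun a => min (2 ^ (min (2 ^ (b.eval (min (2 ^ (m a)) (N a + 1)) + 1))
      (N a + 1))) (N a + 1) + (m a + 1)) := UPoly.add h5 (UPoly.add hm (UPoly.const 1))
  refine u_congr (u_min h6 h1) fun a => ?_
  set c := N a + 1 with hc
  have e1 : min (Gt b (m a)) c = min (min (2 ^ (2 ^ (b.eval (2 ^ (m a)) + 1))) c + (m a + 1)) c := by
    have : Gt b (m a) = 2 ^ (2 ^ (b.eval (2 ^ (m a)) + 1)) + (m a + 1) := rfl
    rw [this]
    exact min_cap (f := fun z => z + (m a + 1)) (fun _ _ h => Nat.add_le_add_right h _)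
      (Nat.le_add_right _ _) _
  have e2 : min (2 ^ (2 ^ (b.eval (2 ^ (m a)) + 1))) c =
      min (2 ^ (min (2 ^ (b.eval (2 ^ (m a)) + 1)) c)) c :=
    min_cap (f := fun z => 2 ^ z) (fun _ _ h => Nat.pow_le_pow_right (by norm_num) h)
      Nat.lt_two_pow_self.le _
  have e3 : min (2 ^ (b.eval (2 ^ (m a)) + 1)) c =
      min (2 ^ (b.eval (min (2 ^ (m a)) c) + 1)) c :=
    min_cap (f := fun z => 2 ^ (b.eval z + 1))
      (fun _ _ h => Nat.pow_le_pow_right (by norm_num) (Nat.add_le_add_right (eval_mono b h) _))
      ((hb c).trans ((Nat.le_succ _).trans Nat.lt_two_pow_self.le)) _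
  rw [e1, e2, e3]

theorem p_Gt_le {b : Polynomial ℕ} (hb : ∀ m, m ≤ b.eval m) {m N : α → ℕ} (hm : UPoly m)
    (hN : UPoly N) : Poly (fun a => decide (Gt b (m a) ≤ N a)) := by
  refine (NPC.Poly.decide_le (u_cap_Gt hb hm hN).toPoly hN.toPoly).congr fun a => ?_
  apply decide_eq_decide.2
  omega

theorem u_toNat {c : α → Bool} (hc : Poly c) : UPoly (fun a => (c a).toNat) := by
  refine (Poly.cond (f := fun _ => [()]) (g := fun _ => []) hc (NPC.Poly.const _)
    (NPC.Poly.const _)).congr fun a => ?_
  show _ = List.replicate (c a).toNat ()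
  cases c a <;> rfl

end

variable (Bad Err : ℕ → ℕ → Set Oracle) (b : Polynomial ℕ) (t : ℕ) (L : List (List Bool))

/-- whether the next block is within reach -/
def okS (x : List Bool) (s : List Unit × List Unit) : Bool :=
  (decide (t < s.1.length) && decide (s.2.length ≤ s.1.length)) &&
    decide (Gt b s.1.length ≤ x.length)

/-- one step in the computation of the levels, in unary -/
noncomputable def stpU (x : List Bool) (s : List Unit × List Unit) : List Unit × List Unit :=
  if okS b t x s = true then (List.replicate (Gt b s.1.length) (),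
    List.replicate (s.2.length + (chk Bad Err t L s.1.length s.2.length).toNat) ()) else s

variable {Bad Err b}

theorem p_stpU (hc : Check Bad Err b) :
    Poly (fun p : List Bool × (List Unit × List Unit) => stpU Bad Err b t L p.1 p.2) := by
  have h1 : Poly (fun p : List Bool × (List Unit × List Unit) => p.1) := Poly.fst Poly.id
  have h2 : UPoly (fun p : List Bool × (List Unit × List Unit) => p.2.1.length) :=
    UPoly.length (Poly.fst (Poly.snd Poly.id))
  have h3 : UPoly (fun p : List Bool × (List Unit × List Unit) => p.2.2.length) :=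
    UPoly.length (Poly.snd (Poly.snd Poly.id))
  have h4 : UPoly (fun p : List Bool × (List Unit × List Unit) => p.1.length) :=
    UPoly.length h1
  have hb : Poly (fun p : List Bool × (List Unit × List Unit) => okS b t p.1 p.2) :=
    Poly.and (Poly.and (NPC.Poly.decide_lt (NPC.Poly.const t) h2.toPoly)
      (NPC.Poly.decide_le h3.toPoly h2.toPoly)) (p_Gt_le hc.le_eval h2 h4)
  have hok : ∀ p : {p : List Bool × (List Unit × List Unit) // okS b t p.1 p.2 = true},
      t < p.1.2.1.length ∧ p.1.2.2.length ≤ p.1.2.1.length ∧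
        Gt b p.1.2.1.length ≤ p.1.1.length := by
    rintro ⟨p, hp⟩
    simp only [okS, Bool.and_eq_true, decide_eq_true_eq] at hp
    exact ⟨hp.1.1, hp.1.2, hp.2⟩
  have hval := Poly.val (fun p : List Bool × (List Unit × List Unit) => okS b t p.1 p.2 = true)
  have hg1 : UPoly (fun p : {p : List Bool × (List Unit × List Unit) // okS b t p.1 p.2 = true} =>
      Gt b p.1.2.1.length) := by
    refine u_congr (u_cap_Gt hc.le_eval (h2.comp hval) (h4.comp hval)) fun p => ?_
    have := (hok p).2.2
    omega
  have hg2 : Poly (fun p : {p : List Bool × (List Unit × List Unit) // okS b t p.1 p.2 = true} =>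
      chk Bad Err t L p.1.2.1.length p.1.2.2.length) := by
    refine p_chk hc t L (h2.comp hval) (h3.comp hval) (h4.comp hval) (fun p => (hok p).1)
      (fun p => (hok p).2.1) fun p => ?_
    refine le_trans ?_ (hok p).2.2
    exact (Nat.le_add_right _ _).trans (Nat.le_add_right _ 1)
  have hg3 : UPoly (fun p : {p : List Bool × (List Unit × List Unit) // okS b t p.1 p.2 = true} =>
      p.1.2.2.length + (chk Bad Err t L p.1.2.1.length p.1.2.2.length).toNat) :=
    UPoly.add (h3.comp hval) (u_toNat hg2)
  have hf : Poly (fun p : {p : List Bool × (List Unit × List Unit) // okS b t p.1 p.2 = true} =>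
      (List.replicate (Gt b p.1.2.1.length) (),
        List.replicate (p.1.2.2.length +
          (chk Bad Err t L p.1.2.1.length p.1.2.2.length).toNat) ())) := Poly.pair hg1 hg3
  have hval' := Poly.val (fun p : List Bool × (List Unit × List Unit) => okS b t p.1 p.2 = false)
  have hg : Poly (fun p : {p : List Bool × (List Unit × List Unit) // okS b t p.1 p.2 = false} =>
      p.1.2) := (Poly.snd Poly.id).comp hval'
  refine (Poly.dcond hb hf hg).congr fun p => ?_
  unfold stpU
  by_cases h : okS b t p.1 p.2 = true
  · rw [dif_pos h, if_pos h]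
  · rw [dif_neg h, if_neg h]

/-- the initial state -/
def s0 (t : ℕ) : List Unit × List Unit := (List.replicate (t + 4) (), List.replicate 4 ())

theorem stpU_len (x : List Bool) (k : ℕ) :
    ((stpU Bad Err b t L x)^[k] (s0 t)).1.length ≤ x.length + (t + 4) ∧
    ((stpU Bad Err b t L x)^[k] (s0 t)).2.length ≤ 4 + k := by
  induction k with
  | zero => simp [s0]
  | succ k ih =>
    rw [Function.iterate_succ_apply']
    set s := (stpU Bad Err b t L x)^[k] (s0 t) with hs
    unfold stpU
    split_ifs with h
    · simp only [okS, Bool.and_eq_true, decide_eq_true_eq] at h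
      simp only [List.length_replicate]
      have : (chk Bad Err t L s.1.length s.2.length).toNat ≤ 1 := Bool.toNat_le _
      omega
    · omega

theorem p_iter (hc : Check Bad Err b) :
    Poly (fun x : List Bool => (stpU Bad Err b t L x)^[x.length] (s0 t)) := by
  refine Poly.iterLen (l := fun x : List Bool => x) (s := fun _ => s0 t)
    (F := fun (x : List Bool) (s : List Unit × List Unit) => stpU Bad Err b t L x s)
    Poly.id (NPC.Poly.const _) (p_stpU t L hc)
    (Polynomial.C 4 * Polynomial.X + Polynomial.C (4 * t + 40)) ?_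
  intro x k hk
  obtain ⟨h1, h2⟩ := stpU_len (Bad := Bad) (Err := Err) (b := b) t L x k
  have h3 := length_lt_sz x
  set s := (stpU Bad Err b t L x)^[k] (s0 t) with hs
  have e : ∀ l : List Unit, sz l = 2 * l.length + 1 := by
    intro l
    have : l = List.replicate l.length () := by
      apply List.eq_replicate_of_mem
      intro _ _
      rfl
    rw [this, sz_replicate_unit, List.length_replicate]
  have h4 : sz s = sz s.1 + sz s.2 + 1 := sz_pair s.1 s.2
  rw [h4, e, e]
  simp only [Polynomial.eval_add, Polynomial.eval_mul, Polynomial.eval_C, Polynomial.eval_X]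
  omega

/-! ## Correctness -/

theorem stpU_of_le {x : List Bool} {i : ℕ} (h : Tt b t (i + 1) ≤ x.length) :
    stpU Bad Err b t L x (List.replicate (Tt b t i) (),
      List.replicate (lev Bad Err t L (Tt b t) i) ()) =
    (List.replicate (Tt b t (i + 1)) (), List.replicate (lev Bad Err t L (Tt b t) (i + 1)) ()) := by
  unfold stpU
  have h1 := Tt_ge b t i
  have h2 := lev_le (Bad := Bad) (Err := Err) (t := t) (L := L) (Tt b t) i
  rw [if_pos]
  · simp only [List.length_replicate]
    rfl
  · simp only [okS, List.length_replicate, Bool.and_eq_true, decide_eq_true_eq]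
    rw [Tt_succ] at h
    exact ⟨⟨by omega, by omega⟩, h⟩

theorem stpU_of_lt {x : List Bool} {s : List Unit × List Unit} (h : x.length < Gt b s.1.length) :
    stpU Bad Err b t L x s = s := by
  unfold stpU
  rw [if_neg]
  simp only [okS, Bool.and_eq_true, decide_eq_true_eq]
  rintro ⟨-, h2⟩
  omega

theorem iter_eq (x : List Bool) (k : ℕ) : ∃ i, (stpU Bad Err b t L x)^[k] (s0 t) =
    (List.replicate (Tt b t i) (), List.replicate (lev Bad Err t L (Tt b t) i) ()) := by
  induction k with
  | zero => exact ⟨0, rfl⟩
  | succ k ih =>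
    obtain ⟨i, hi⟩ := ih
    rw [Function.iterate_succ_apply', hi]
    by_cases h : Tt b t (i + 1) ≤ x.length
    · exact ⟨i + 1, stpU_of_le t L h⟩
    · refine ⟨i, stpU_of_lt t L ?_⟩
      rw [Tt_succ] at h
      simp only [List.length_replicate]
      omega

theorem iter_Tt (x : List Bool) (k : ℕ) (h : Tt b t k ≤ x.length) :
    (stpU Bad Err b t L x)^[k] (s0 t) =
      (List.replicate (Tt b t k) (), List.replicate (lev Bad Err t L (Tt b t) k) ()) := by
  induction k with
  | zero => rfl
  | succ k ih =>
    rw [Function.iterate_succ_apply', ih (((Tt_strictMono b t).monotone (Nat.le_succ k)).trans h),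
      stpU_of_le t L h]

theorem iter_stop (x : List Bool) (i : ℕ) (h : x.length = Tt b t i) :
    (stpU Bad Err b t L x)^[x.length] (s0 t) =
      (List.replicate (Tt b t i) (), List.replicate (lev Bad Err t L (Tt b t) i) ()) := by
  have h1 := Tt_ge b t i
  obtain ⟨d, hd⟩ : ∃ d, x.length = d + i := ⟨x.length - i, by omega⟩
  have h2 : (stpU Bad Err b t L x)^[d + i] (s0 t) =
      (stpU Bad Err b t L x)^[d] ((stpU Bad Err b t L x)^[i] (s0 t)) :=
    Function.iterate_add_apply _ _ _ _
  rw [hd, h2, iter_Tt t L x i h.ge]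
  apply Function.iterate_fixed
  apply stpU_of_lt
  simp only [List.length_replicate]
  rw [h]
  exact lt_Gt b _

/-- The schedule and the levels are computable in polynomial time, in unary. -/
theorem levels_poly (hc : Check Bad Err b) : ∃ (f : ℕ → ℕ) (g : ℕ → Bool),
    UPoly (fun x : List Bool => f x.length) ∧ Poly (fun x : List Bool => g x.length) ∧
    (∀ N, g N = true ↔ ∃ i, N = Tt b t i) ∧
    ∀ i, f (Tt b t i) = lev Bad Err t L (Tt b t) i := by
  have hrep : ∀ x : List Bool, (List.replicate x.length true).length = x.length := fun x => by simp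
  set st : ℕ → List Unit × List Unit := fun N =>
    (stpU Bad Err b t L (List.replicate N true))^[N] (s0 t) with hst
  have hpst : Poly (fun x : List Bool => st x.length) := by
    refine ((p_iter t L hc).comp (p_replicate (UPoly.length (Poly.id (α := List Bool)))
      true)).congr fun x => ?_
    simp only [hst, List.length_replicate]
  refine ⟨fun N => (st N).2.length, fun N => decide ((st N).1.length = N), ?_, ?_, ?_, ?_⟩
  · exact UPoly.length (Poly.snd hpst)
  · exact NPC.Poly.decide_eq (Poly.length (Poly.fst hpst)) (Poly.length Poly.id)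
  · intro N
    rw [decide_eq_true_eq]
    constructor
    · intro h
      obtain ⟨i, hi⟩ := iter_eq (Bad := Bad) (Err := Err) (b := b) t L (List.replicate N true) N
      refine ⟨i, ?_⟩
      have h2 : (st N).1.length = Tt b t i := by
        simp only [hst, hi, List.length_replicate]
      omega
    · rintro ⟨i, rfl⟩
      have h1 := iter_stop (Bad := Bad) (Err := Err) (b := b) t L
        (List.replicate (Tt b t i) true) i (by simp)
      rw [List.length_replicate] at h1
      simp only [hst, h1, List.length_replicate]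
  · intro i
    have h1 := iter_stop (Bad := Bad) (Err := Err) (b := b) t L
      (List.replicate (Tt b t i) true) i (by simp)
    rw [List.length_replicate] at h1
    simp only [hst, h1, List.length_replicate]

end Pool.Agent.J6H54.RO
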