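import Pool.Agent.J6H54.RO.KeySF
import Pool.Agent.J6H54.RO.Lvl

/-!
# No optimal proof systems for sets hard for `coNP`, relative to a random oracle
-/

set_option autoImplicit false

namespace Pool.Agent.J6H54.RO

open MeasureTheory Filter Pool.Agent.NPC Pool.Agent.H628R3.RO

/-- the statements that there is no hit which are true, and the empty string -/
def LT (A : Oracle) : Set (List Bool) := {x | x = [] ∨ A ∉ BadT (siz x) (lvl x)}

/-- the statements that there is a hit which are true, and the empty string -/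
def LS (A : Oracle) : Set (List Bool) := {x | x = [] ∨ A ∉ BadS (siz x) (lvl x)}

theorem code_ne_nil (n j : ℕ) : code n j ≠ [] := by
  unfold code
  simp

theorem code_mem_LT {A : Oracle} {n j : ℕ} : code n j ∈ LT A ↔ A ∉ BadT n j := by
  unfold LT
  rw [Set.mem_ofPred_eq, siz_code, lvl_code]
  simp [code_ne_nil]

theorem code_mem_LS {A : Oracle} {n j : ℕ} : code n j ∈ LS A ↔ A ∉ BadS n j := by
  unfold LS
  rw [Set.mem_ofPred_eq, siz_code, lvl_code]
  simp [code_ne_nil]

theorem nil_mem_LT (A : Oracle) : [] ∈ LT A := Or.inl rfl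

theorem nil_mem_LS (A : Oracle) : [] ∈ LS A := Or.inl rfl

theorem tendsto_Tt (b : Polynomial ℕ) (t : ℕ) : Tendsto (Tt b t) atTop atTop :=
  (Tt_strictMono b t).tendsto_atTop

/-- adding axioms to a proof system -/
theorem addAx_isProofSystem {A : Oracle} {L₀ : Set (List Bool)} {P ax : List Bool → List Bool}
    (hP : IsProofSystem A L₀ P) (hax : Poly ax) (h : ∀ x, ax x ∈ L₀) :
    IsProofSystem A L₀ (addSys (fun x => x) P ax) := by
  refine ⟨addSys_isFP (IsFP.of_poly Poly.id) hP.1 (IsFP.of_poly hax), ?_⟩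
  ext x
  constructor
  · rintro ⟨w, rfl⟩
    unfold addSys
    split_ifs
    · exact h _
    · rw [← hP.2]
      exact ⟨_, rfl⟩
  · intro hx
    rw [← hP.2] at hx
    obtain ⟨v, hv⟩ := hx
    refine ⟨false :: v, ?_⟩
    unfold addSys
    rw [if_neg (by simp), List.tail_cons, hv]

/-- the axioms: the statements `code N (f N)` for `N` in the schedule -/
theorem p_ax {f : ℕ → ℕ} {g : ℕ → Bool} (hf : UPoly (fun x : List Bool => f x.length))
    (hg : Poly (fun x : List Bool => g x.length)) :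
    Poly (fun x : List Bool => if g x.length = true then code x.length (f x.length) else []) :=
  Poly.ite (Poly.decide_bool hg) (p_code (UPoly.length Poly.id) hf) (NPC.Poly.const [])

/-- the exceptional set for the proof system `M` -/
def XT (M : Alg) (k : ℕ) : Set Oracle :=
  {A | ∃ P₀ : List Bool → List Bool, (∀ w, M.out A w = some (P₀ w)) ∧
    IsProofSystem A (LT A) P₀ ∧ ∀ Q, IsProofSystem A (LT A) Q →
      ∀ᶠ n in atTop, ∃ v, P₀ v = Q (true :: List.replicate n true) ∧ v.length ^ k ≤ 2 ^ n}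

theorem locBadT (n j : ℕ) (hj : j ≤ n) :
    Loc {x | n < x.length ∧ x.length ≤ 3 * n + 2} (BadT n j) :=
  M2.Loc.mono (loc_BadT n j) fun x hx => ⟨lt_length_spotsT x hx, length_le_spotsT hj x hx⟩

theorem locBadS (n j : ℕ) (hj : j ≤ n) :
    Loc {x | n < x.length ∧ x.length ≤ 3 * n + 2} (BadS n j) :=
  M2.Loc.mono (loc_BadS n j) fun x hx => ⟨lt_length_spotsS x hx, length_le_spotsS hj x hx⟩

theorem null_XT (M : Alg) : ∃ k ≥ 1, randomOracle (XT M k) = 0 := by
  obtain ⟨k, hk, N, hN⟩ := key_T M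
  refine ⟨k, hk, ?_⟩
  obtain ⟨b, hc⟩ := check_T M
  obtain ⟨b2, hb2⟩ := loc_GoodT M hk
  have hS : Scheme BadT (ErrP M) (GoodT M k) b :=
    { le_eval := hc.le_eval
      locErr := hc.locErr
      locBad := locBadT
      badLe := prob_BadT_le
      badGe := prob_BadT_ge
      goodMeas := fun n j => measurableSet_of_loc (finite_length_le _) (hb2 n j)
      key := ⟨N, hN⟩ }
  refine hS.null ?_ ?_
  · rintro A ⟨P₀, hM, hP, -⟩ n j hbad ⟨u, -, hu⟩
    rw [hM u, Option.some.injEq] at hu
    have h1 : code n j ∈ LT A := by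
      rw [← hu, ← hP.2]
      exact ⟨u, rfl⟩
    exact code_mem_LT.1 h1 hbad
  · rintro t L A ⟨P₀, hM, hP, hQ⟩ hgood
    obtain ⟨f, g, hf, hg, hg', hf'⟩ := levels_poly t L hc
    have hax : ∀ x : List Bool, (if g x.length = true then code x.length (f x.length) else []) ∈
        LT A := by
      intro x
      split_ifs with h
      · obtain ⟨i, hi⟩ := (hg' _).1 h
        rw [hi, hf', code_mem_LT]
        exact hgood i
      · exact nil_mem_LT A
    have h1 := hQ _ (addAx_isProofSystem hP (p_ax hf hg) hax)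
    have h2 := (tendsto_Tt b t).eventually h1
    filter_upwards [h2] with i hi
    obtain ⟨v, hv, hvk⟩ := hi
    rw [addSys_true, List.length_replicate, if_pos ((hg' _).2 ⟨i, rfl⟩), hf'] at hv
    exact ⟨v, hvk, by rw [hM v, hv]⟩

theorem ae_T : ∀ᵐ A ∂randomOracle, ∀ P₀, IsProofSystem A (LT A) P₀ → ∃ k ≥ 1, ∃ Q,
    IsProofSystem A (LT A) Q ∧
      ∃ᶠ n in atTop, ∀ v, P₀ v = Q (true :: List.replicate n true) → 2 ^ n < v.length ^ k := by
  have h : ∀ M : Alg, ∀ᵐ A ∂randomOracle, ∃ k ≥ 1, A ∉ XT M k := by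
    intro M
    obtain ⟨k, hk, h0⟩ := null_XT M
    have : ∀ᵐ A ∂randomOracle, A ∉ XT M k := measure_eq_zero_iff_ae_notMem.1 h0
    filter_upwards [this] with A hA
    exact ⟨k, hk, hA⟩
  filter_upwards [ae_all_iff.2 h] with A hA P₀ hP
  obtain ⟨M, hM⟩ := hP.1
  obtain ⟨k, hk, hX⟩ := hA M
  refine ⟨k, hk, ?_⟩
  by_contra hcon
  apply hX
  refine ⟨P₀, hM, hP, fun Q hQ => ?_⟩
  by_contra hcon'
  apply hcon
  refine ⟨Q, hQ, ?_⟩
  rw [not_eventually] at hcon'
  refine hcon'.mono fun n hn v hv => ?_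
  push Not at hn
  exact hn v hv

/-- infinitely many proofs `w` in the system `Q` are such that all proofs of the same string in
the system `P` are exponentially longer: their length is at least `2 ^ (|w| / k) - 1` -/
def Beats (P Q : List Bool → List Bool) : Prop :=
  ∃ k : ℕ, {w : List Bool | ∀ v, P v = Q w → 2 ^ w.length < (v.length + 1) ^ k}.Infinite

theorem red_LT {A : Oracle} {L : Set (List Bool)} (hL : CoNPHardRel A L) : Red A (LT A) L :=
  hL _ (isCoNP_LT A)

theorem beats_transfer {A : Oracle} {L : Set (List Bool)} {P : List Bool → List Bool}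
    (hL : CoNPHardRel A L) (hP : IsProofSystem A L P)
    (h : ∀ P₀, IsProofSystem A (LT A) P₀ → ∃ k ≥ 1, ∃ Q,
      IsProofSystem A (LT A) Q ∧
        ∃ᶠ n in atTop, ∀ v, P₀ v = Q (true :: List.replicate n true) → 2 ^ n < v.length ^ k) :
    ∃ Q, IsProofSystem A L Q ∧ Beats P Q := by
  obtain ⟨F, hF, hr⟩ := red_LT hL
  obtain ⟨k, hk, Q₀, hQ₀, hfr⟩ := h _ (backSys_isProofSystem hP hF hr (nil_mem_LT A))
  obtain ⟨b, hb⟩ := IsFP.length_le hQ₀.1
  obtain ⟨N, hN⟩ := poly_le_two_pow (((2 * b + 1).comp (Polynomial.X + 1)) ^ (2 * k))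
  refine ⟨_, addSys_isProofSystem hP hF hr hQ₀, 2 * k, ?_⟩
  have hfr' := hfr.and_eventually (eventually_ge_atTop N)
  have hinf : {n : ℕ | (∀ v, backSys F P [] v = Q₀ (true :: List.replicate n true) →
      2 ^ n < v.length ^ k) ∧ N ≤ n}.Infinite := Nat.frequently_atTop_iff_infinite.1 hfr'
  have hinj : Set.InjOn (fun n : ℕ => true :: true :: List.replicate n true)
      {n : ℕ | (∀ v, backSys F P [] v = Q₀ (true :: List.replicate n true) →
        2 ^ n < v.length ^ k) ∧ N ≤ n} := by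
    intro n _ m _ hnm
    have := congrArg List.length hnm
    simpa using this
  refine (hinf.image hinj).mono ?_
  rintro w ⟨n, ⟨h1, h2⟩, rfl⟩
  simp only [Set.mem_ofPred_eq, List.length_cons, List.length_replicate]
  intro v hv
  rw [addSys_true] at hv
  have h3 := h1 _ (backSys_pair hv)
  rw [length_pairBits_A3] at h3
  have h4 := hb (true :: List.replicate n true)
  simp only [List.length_cons, List.length_replicate] at h4
  have h5 := hN n h2
  simp only [Polynomial.eval_pow, Polynomial.eval_comp, Polynomial.eval_add,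
    Polynomial.eval_mul, Polynomial.eval_ofNat, Polynomial.eval_one, Polynomial.eval_X] at h5
  set B := 2 * b.eval (n + 1) + 1 with hB
  have h6 : 2 * (Q₀ (true :: List.replicate n true)).length + 1 + v.length ≤
      B * (v.length + 1) := by nlinarith
  have h7 : 2 ^ n < (B * (v.length + 1)) ^ k := h3.trans_le (Nat.pow_le_pow_left h6 k)
  have h8 : (2 ^ n) ^ 2 < ((B * (v.length + 1)) ^ k) ^ 2 :=
    Nat.pow_lt_pow_left h7 (by norm_num)
  have h9 : ((B * (v.length + 1)) ^ k) ^ 2 = B ^ (2 * k) * (v.length + 1) ^ (2 * k) := by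
    rw [← pow_mul, mul_comm k 2, mul_pow]
  rw [h9] at h8
  have h10 : 32 * (B ^ (2 * k) * (v.length + 1) ^ (2 * k)) ≤
      2 ^ n * (v.length + 1) ^ (2 * k) := by
    calc 32 * (B ^ (2 * k) * (v.length + 1) ^ (2 * k)) =
        (32 * B ^ (2 * k)) * (v.length + 1) ^ (2 * k) := by ring
      _ ≤ _ := Nat.mul_le_mul_right _ h5
  have h11 : 2 ^ n * (32 * 2 ^ n) < 2 ^ n * (v.length + 1) ^ (2 * k) := by
    calc 2 ^ n * (32 * 2 ^ n) = 32 * (2 ^ n) ^ 2 := by ring
      _ < 32 * (B ^ (2 * k) * (v.length + 1) ^ (2 * k)) := by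
          exact Nat.mul_lt_mul_of_pos_left h8 (by norm_num)
      _ ≤ _ := h10
  have h12 : 32 * 2 ^ n < (v.length + 1) ^ (2 * k) :=
    Nat.lt_of_mul_lt_mul_left h11
  have h13 : 2 ^ (n + 1 + 1) = 4 * 2 ^ n := by ring
  omega

/-- Relative to a random oracle, no set hard for `coNP` has an optimal proof system. -/
theorem final_T : ∀ᵐ A ∂randomOracle, ∀ L, CoNPHardRel A L → ∀ P, IsProofSystem A L P →
    ∃ Q, IsProofSystem A L Q ∧ Beats P Q := by
  filter_upwards [ae_T] with A hA L hL P hP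
  exact beats_transfer hL hP hA

theorem Beats.not_le {P Q : List Bool → List Bool} (h : Beats P Q) :
    ¬ ∃ q : Polynomial ℕ, ∀ w, ∃ v, P v = Q w ∧ v.length ≤ q.eval w.length := by
  rintro ⟨q, hq⟩
  obtain ⟨k, hk⟩ := h
  obtain ⟨N, hN⟩ := poly_le_two_pow ((q + 1) ^ k)
  have hfin : {w : List Bool | w.length < N}.Finite :=
    (List.finite_length_le Bool N).subset fun w hw => show w.length ≤ N from Nat.le_of_lt hw
  obtain ⟨w, hw, hw'⟩ := hk.exists_notMem_finite hfin
  simp only [Set.mem_ofPred_eq, not_lt] at hw hw'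
  obtain ⟨v, hv, hvl⟩ := hq w
  have h1 := hw v hv
  have h2 := hN _ hw'
  simp only [Polynomial.eval_pow, Polynomial.eval_add, Polynomial.eval_one] at h2
  have h3 : (v.length + 1) ^ k ≤ (q.eval w.length + 1) ^ k :=
    Nat.pow_le_pow_left (Nat.add_le_add_right hvl 1) k
  omega

end Pool.Agent.J6H54.RO
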