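import Pool.Agent.J6H54.RO.FinT

/-!
# No `p`-optimal proof systems for sets hard for `NP`, relative to a random oracle
-/

set_option autoImplicit false

namespace Pool.Agent.J6H54.RO

open MeasureTheory Filter Pool.Agent.NPC Pool.Agent.H628R3.RO

instance : Nonempty Alg := ⟨⟨fun x => x, polyTime_id, 0⟩⟩

/-- the exceptional set for the proof system `M` -/
def XS (M : Alg) : Set Oracle :=
  {A | ∃ P₀ : List Bool → List Bool, (∀ w, M.out A w = some (P₀ w)) ∧ IsPOptimal A (LS A) P₀}

theorem null_XS (M : Alg) : randomOracle (XS M) = 0 := by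
  obtain ⟨a, ha⟩ := exists_surjective_nat Alg
  choose P hP using fun l => hkey_S M (a l)
  obtain ⟨bE, hbE⟩ := loc_ErrP M
  obtain ⟨b, hc⟩ := check_S M
  obtain ⟨F, hF1, hF2, hF3⟩ := key_union (E := fun n j => ErrP M n j)
    (G := fun l n j => GoodS M (a l) n j) (P := P) (fun n j => ⟨_, hbE n j⟩)
    (fun l n j => by
      obtain ⟨b2, hb2⟩ := loc_GoodS M (a l)
      exact ⟨_, hb2 n j⟩)
    (fun l n j => hP l n j)
  have hS : Scheme BadS (ErrP M) (fun n j => {A : Oracle | ∃ l ∈ F n, A ∈ GoodS M (a l) n j}) b :=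
    { le_eval := hc.le_eval
      locErr := hc.locErr
      locBad := locBadS
      badLe := prob_BadS_le
      badGe := prob_BadS_ge
      goodMeas := hF2
      key := ⟨1, hF3⟩ }
  refine hS.null ?_ ?_
  · rintro A ⟨P₀, hM, hP, -⟩ n j hbad ⟨u, -, hu⟩
    rw [hM u, Option.some.injEq] at hu
    have h1 : code n j ∈ LS A := by
      rw [← hu, ← hP.2]
      exact ⟨u, rfl⟩
    exact code_mem_LS.1 h1 hbad
  · rintro t L A ⟨P₀, hM, hP, hQ⟩ hgood
    obtain ⟨f, g, hf, hg, hg', hf'⟩ := levels_poly t L hc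
    have hax : ∀ x : List Bool, (if g x.length = true then code x.length (f x.length) else []) ∈
        LS A := by
      intro x
      split_ifs with h
      · obtain ⟨i, hi⟩ := (hg' _).1 h
        rw [hi, hf', code_mem_LS]
        exact hgood i
      · exact nil_mem_LS A
    obtain ⟨h₀, ⟨h, hh⟩, hsim⟩ := hQ _ (addAx_isProofSystem hP (p_ax hf hg) hax)
    obtain ⟨l, rfl⟩ := ha h
    have h2 := (tendsto_Tt b t).eventually (hF1 l)
    filter_upwards [h2] with i hi
    refine ⟨l, hi, h₀ (true :: List.replicate (Tt b t i) true), hh _, ?_⟩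
    have h3 := hsim (true :: List.replicate (Tt b t i) true)
    rw [addSys_true, List.length_replicate, if_pos ((hg' _).2 ⟨i, rfl⟩), hf'] at h3
    rw [hM, h3]

/-- Relative to a random oracle, no set hard for `NP` has a `p`-optimal proof system. -/
theorem final_S : ∀ᵐ A ∂randomOracle, ∀ L, NPHardRel A L → ∀ P, ¬ IsPOptimal A L P := by
  have h : ∀ M : Alg, ∀ᵐ A ∂randomOracle, A ∉ XS M := fun M =>
    measure_eq_zero_iff_ae_notMem.1 (null_XS M)
  filter_upwards [ae_all_iff.2 h] with A hA L hL P hP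
  obtain ⟨P₀, hP₀⟩ := hP.transfer (hL _ (isNP_LS A)) ⟨[], nil_mem_LS A⟩
  obtain ⟨M, hM⟩ := hP₀.1.1
  exact hA M ⟨P₀, hM, hP₀⟩

end Pool.Agent.J6H54.RO
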