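import Pool.Agent.J6H54.RO.FinT

/-!
# No complete total `NP` search problems, relative to a random oracle
-/

set_option autoImplicit false

namespace Pool.Agent.J6H54.RO

open MeasureTheory Filter Pool.Agent.NPC Pool.Agent.H628R3.RO

instance instNonemptyAlg' : Nonempty (Alg × Alg) :=
  ⟨(⟨fun x => x, polyTime_id, 0⟩, ⟨fun x => x, polyTime_id, 0⟩)⟩

theorem isFP_test (A : Oracle) {Q : List Bool × List Bool → List (List Bool)}
    {T : (List Bool × List Bool) × List Bool → Bool} (hQ : Poly Q) (hT : Poly T) :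
    IsFP A (fun y => [T (unpair y, (Q (unpair y)).map A)]) := by
  have h1 : IsFP A (fun y => (fun z : List Bool × List Bool => [T (unpair z.1, z.2)])
      (y, ((fun y => Q (unpair y)) y).map A)) := by
    refine IsFP.tt (Q := fun y => Q (unpair y)) (H := fun z => [T (unpair z.1, z.2)])
      (hQ.comp poly_unpair) ?_
    exact Poly.cons (hT.comp (Poly.pair (poly_unpair.comp (Poly.fst Poly.id))
      (Poly.snd Poly.id))) (NPC.Poly.const [])
  exact h1

theorem lvl_true (z : List Bool) : lvl (true :: z) = lvl z + 1 := by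
  unfold lvl
  rw [List.takeWhile_cons]
  simp

theorem lvl_false (z : List Bool) : lvl (false :: z) = 0 := by
  unfold lvl
  rw [List.takeWhile_cons]
  simp

theorem candStr_of_drop : ∀ (z : List Bool), 1 ≤ (z.drop (lvl z + 1)).length →
    z = candStr (lvl z) (z.drop (lvl z + 1))
  | [], h => by simp at h
  | true :: z, h => by
    rw [lvl_true, List.drop_succ_cons] at h ⊢
    have h1 := candStr_of_drop z h
    unfold candStr at h1 ⊢
    rw [List.replicate_succ, List.cons_append, ← h1]
  | false :: z, h => by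
    rw [lvl_false]
    unfold candStr
    simp

/-- the search problem: find a hit in the block, for the lengths in the schedule -/
def RF (A : Oracle) (f : ℕ → ℕ) (g : ℕ → Bool) (x z : List Bool) : Prop :=
  z.length ≤ 2 * x.length + 1 ∧ (g x.length = true → lvl z < f x.length ∧
    (z.drop (lvl z + 1)).length = x.length ∧ Hit x.length (lvl z, z.drop (lvl z + 1)) A)

/-- the questions of the verifier -/
def qF (p : List Bool × List Bool) : List (List Bool) :=
  asks p.1.length (lvl p.2) (p.2.drop (lvl p.2 + 1))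

/-- the test of the verifier -/
def tF (f : ℕ → ℕ) (g : ℕ → Bool) (p : (List Bool × List Bool) × List Bool) : Bool :=
  !(g p.1.1.length) || (decide (lvl p.1.2 < f p.1.1.length) &&
    (decide ((p.1.2.drop (lvl p.1.2 + 1)).length = p.1.1.length) && p.2.all id))

theorem isTFNP_RF {A : Oracle} {f : ℕ → ℕ} {g : ℕ → Bool}
    (hf : UPoly (fun x : List Bool => f x.length)) (hg : Poly (fun x : List Bool => g x.length))
    (hfg : ∀ N, g N = true → f N ≤ N) (hA : ∀ N, g N = true → A ∉ BadS N (f N)) :
    IsTFNP A (RF A f g) := by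
  refine ⟨⟨fun y => [tF f g (unpair y, (qF (unpair y)).map A)],
    2 * Polynomial.X + 1, ?_, ?_⟩, ?_⟩
  · refine isFP_test A ?_ ?_
    · have h2 : Poly (fun p : List Bool × List Bool => p.2) := Poly.snd Poly.id
      exact p_asks (UPoly.length (Poly.fst Poly.id)) (u_lvl h2)
        (p_drop h2 (UPoly.add (u_lvl h2) (UPoly.const 1)))
    · have h1 : Poly (fun p : (List Bool × List Bool) × List Bool => p.1.1) :=
        Poly.fst (Poly.fst Poly.id)
      have h2 : Poly (fun p : (List Bool × List Bool) × List Bool => p.1.2) :=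
        Poly.snd (Poly.fst Poly.id)
      exact Poly.or (Poly.not (hg.comp h1))
        (Poly.and (Poly.decide_lt (u_lvl h2).toPoly (hf.comp h1).toPoly)
          (Poly.and (Poly.decide_eq (Poly.length (p_drop h2 (UPoly.add (u_lvl h2)
            (UPoly.const 1)))) (Poly.length h1)) (p_all_id (Poly.snd Poly.id))))
  · intro x z
    unfold RF tF qF
    simp only [unpair_pairBits, List.cons.injEq, and_true, Polynomial.eval_add,
      Polynomial.eval_mul, Polynomial.eval_ofNat, Polynomial.eval_X, Polynomial.eval_one,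
      Bool.or_eq_true, Bool.and_eq_true, decide_eq_true_eq, asks_all, Bool.not_eq_true']
    refine and_congr_right fun _ => ?_
    constructor
    · intro h
      by_cases hgx : g x.length = true
      · exact Or.inr (h hgx)
      · exact Or.inl (by simpa using hgx)
    · rintro (h | h) hgx
      · rw [h] at hgx
        simp at hgx
      · exact h
  · intro x
    by_cases hgx : g x.length = true
    · have h1 := hA _ hgx
      unfold BadS blkS at h1
      rw [not_mem_noHit] at h1
      obtain ⟨⟨c, w⟩, hκ, hh⟩ := h1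
      rw [mem_cands, Finset.mem_range] at hκ
      obtain ⟨hc, hw⟩ := hκ
      simp only at hc hw
      have h2 := hfg _ hgx
      refine ⟨candStr c w, ?_, fun _ => ?_⟩
      · rw [length_candStr]
        omega
      · rw [lvl_candStr, drop_candStr]
        exact ⟨hc, hw, hh⟩
    · exact ⟨[], by simp, fun h => absurd h hgx⟩

/-- the exceptional set for the search problem given by `V` and `p` -/
def XF (V : Alg) (p : Polynomial ℕ) : Set Oracle :=
  {A | ∃ (S : List Bool → List Bool → Prop) (V₀ : List Bool → List Bool),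
    (∀ z, V.out A z = some (V₀ z)) ∧
    (∀ x y, S x y ↔ y.length ≤ p.eval x.length ∧ V₀ (pairBits x y) = [true]) ∧
    (∀ x, ∃ y, S x y) ∧ ∀ R, IsTFNP A R → RedSearch A R S}

theorem null_XF (V : Alg) (p : Polynomial ℕ) : randomOracle (XF V p) = 0 := by
  obtain ⟨a, ha⟩ := exists_surjective_nat (Alg × Alg)
  choose P hP using fun l => hkey_F V p (a l)
  obtain ⟨bE, hbE⟩ := loc_ErrF V p
  obtain ⟨b, hc⟩ := check_F V p
  obtain ⟨F, hF1, hF2, hF3⟩ := key_union (E := fun n _ => ErrF V p n)
    (G := fun l n j => GoodF V p (a l) n j) (P := P) (fun n _ => ⟨_, hbE n⟩)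
    (fun l n j => by
      obtain ⟨b2, hb2⟩ := loc_GoodF V p (a l)
      exact ⟨_, hb2 n j⟩)
    (fun l n j => hP l n j)
  have hS : Scheme BadS (fun n _ => ErrF V p n)
      (fun n j => {A : Oracle | ∃ l ∈ F n, A ∈ GoodF V p (a l) n j}) b :=
    { le_eval := hc.le_eval
      locErr := hc.locErr
      locBad := locBadS
      badLe := prob_BadS_le
      badGe := prob_BadS_ge
      goodMeas := hF2
      key := ⟨1, hF3⟩ }
  refine hS.null ?_ ?_
  · rintro A ⟨S, V₀, hV, hSV, htot, -⟩ n j - ⟨x, hx, hall⟩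
    obtain ⟨y, hy⟩ := htot x
    rw [hSV] at hy
    apply hall y hy.1
    rw [hV, hy.2]
  · rintro t L A ⟨S, V₀, hV, hSV, htot, hcomp⟩ hgood
    obtain ⟨f, g, hf, hg, hg', hf'⟩ := levels_poly t L hc
    have hfg : ∀ N, g N = true → f N ≤ N := by
      intro N hN
      obtain ⟨i, rfl⟩ := (hg' _).1 hN
      rw [hf']
      exact Scheme.lev_le_Tt i
    have hA : ∀ N, g N = true → A ∉ BadS N (f N) := by
      intro N hN
      obtain ⟨i, rfl⟩ := (hg' _).1 hN
      rw [hf']
      exact hgood i
    obtain ⟨F₀, G₀, ⟨M1, hM1⟩, ⟨M2, hM2⟩, hred⟩ := hcomp _ (isTFNP_RF hf hg hfg hA)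
    obtain ⟨l, hl⟩ := ha (M1, M2)
    have h2 := (tendsto_Tt b t).eventually (hF1 l)
    filter_upwards [h2] with i hi
    refine ⟨l, hi, ?_⟩
    rw [hl]
    refine ⟨F₀ (List.replicate (Tt b t i) true), hM1 _, fun y hy hVy => ?_⟩
    rw [hV, Option.some.injEq] at hVy
    have h3 := hred (List.replicate (Tt b t i) true) y ((hSV _ _).2 ⟨hy, hVy⟩)
    obtain ⟨-, h4⟩ := h3
    rw [List.length_replicate] at h4
    obtain ⟨h5, h6, h7⟩ := h4 ((hg' _).2 ⟨i, rfl⟩)
    rw [hf'] at h5
    have h8 := Tt_ge b t i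
    refine ⟨_, _, h5, h6, ?_, h7⟩
    rw [← candStr_of_drop _ (by rw [h6]; omega)]
    exact hM2 _

/-- Relative to a random oracle, there is no complete total `NP` search problem. -/
theorem final_F : ∀ᵐ A ∂randomOracle, ¬ ∃ S, IsTFNP A S ∧ ∀ R, IsTFNP A R → RedSearch A R S := by
  have hcount : Countable (Polynomial ℕ) := by
    have : Function.Injective (fun p : Polynomial ℕ => (p.toFinsupp.coeff : ℕ →₀ ℕ)) := by
      intro p q h
      ext n
      exact DFunLike.congr_fun h n
    exact this.countable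
  have h : ∀ q : Alg × Polynomial ℕ, ∀ᵐ A ∂randomOracle, A ∉ XF q.1 q.2 := fun q =>
    measure_eq_zero_iff_ae_notMem.1 (null_XF q.1 q.2)
  filter_upwards [ae_all_iff.2 h] with A hA
  rintro ⟨S, ⟨⟨V₀, p, ⟨V, hV⟩, hSV⟩, htot⟩, hcomp⟩
  exact hA (V, p) ⟨S, V₀, hV, hSV, htot, hcomp⟩

end Pool.Agent.J6H54.RO
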