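import Pool.Agent.H628R3.RO.D1
import Pool.Agent.H628R3.RO.N1

/-!
# Density: a set of oracles of positive (outer) measure nearly fills some cylinder
-/

set_option autoImplicit false

namespace Pool.Agent.J6H54.RO

open MeasureTheory Pool.Agent.NPC Pool.Agent.H628R3.RO
open scoped symmDiff

theorem cyl_eq_strs (t : ℕ) (L : List (List Bool)) :
    cyl t L = {A : Oracle | ∀ x ∈ strs t, A x = ofL L x} := by
  ext A
  simp only [cyl, Set.mem_ofPred_eq, mem_strs]

theorem measurableSet_cyl (t : ℕ) (L : List (List Bool)) : MeasurableSet (cyl t L) :=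
  measurableSet_of_loc (finite_length_le t) (loc_cyl t L)

theorem prob_cyl_pos (t : ℕ) (L : List (List Bool)) : 0 < prob (cyl t L) := by
  rw [cyl_eq_strs, prob_agree _ (nodup_strs t)]
  positivity

open Classical in
/-- the partition of a local set into cylinders -/
theorem prob_inter_eq_sum {t : ℕ} {S : Set Oracle} (h : Loc {x | x.length ≤ t} S)
    {Y : Set Oracle} (hY : MeasurableSet Y) :
    prob (Y ∩ S) = ∑ l ∈ ((strs t).sublists.filter (fun l => decide (ofL l ∈ S))).toFinset,
      prob (Y ∩ cyl t l) := by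
  set K := strs t with hKdef
  have hK : K.Nodup := nodup_strs t
  set F := K.sublists.filter (fun l => decide (ofL l ∈ S)) with hF
  have hloc : ∀ A B : Oracle, (∀ x ∈ K, A x = B x) → (A ∈ S ↔ B ∈ S) := by
    intro A B hAB
    exact h A B fun x hx => hAB x (mem_strs.2 hx)
  have hS : Y ∩ S = ⋃ l ∈ F.toFinset, Y ∩ cyl t l := by
    ext A
    simp only [Set.mem_iUnion, List.mem_toFinset, hF, List.mem_filter, List.mem_sublists,
      decide_eq_true_eq, exists_prop, Set.mem_inter_iff, cyl_eq_strs, Set.mem_ofPred_eq, ← hKdef]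
    constructor
    · rintro ⟨hAY, hA⟩
      have h1 : ∀ x ∈ K, A x = ofL (K.filter A) x := fun x hx => (ofL_filter A hx).symm
      exact ⟨K.filter A, ⟨List.filter_sublist, (hloc _ _ h1).1 hA⟩, hAY, h1⟩
    · rintro ⟨l, ⟨_, hl⟩, hAY, hA⟩
      exact ⟨hAY, (hloc _ _ hA).2 hl⟩
  conv_lhs => rw [hS]
  unfold prob
  apply measureReal_biUnion_finset
  · intro l hl l' hl' hne
    rw [Function.onFun, Set.disjoint_left]
    rintro A ⟨-, hA⟩ ⟨-, hA'⟩
    rw [cyl_eq_strs] at hA hA'
    apply hne
    simp only [Finset.mem_coe, List.mem_toFinset, hF, List.mem_filter, List.mem_sublists] at hl hl'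
    rw [← filter_sublist hl.1 hK, ← filter_sublist hl'.1 hK]
    apply List.filter_congr
    intro x hx
    have h1 := hA x hx
    have h2 := hA' x hx
    rw [h1] at h2
    exact h2
  · intro l _
    exact hY.inter (measurableSet_cyl t l)
  · intro l _
    exact measure_ne_top _ _

/-- a measurable set of positive measure nearly fills some cylinder -/
theorem density_meas {Y : Set Oracle} (hY : MeasurableSet Y) (hp : 0 < prob Y) {ε : ℝ}
    (hε : 0 < ε) (hε1 : ε < 1) :
    ∃ (t : ℕ) (L : List (List Bool)), (1 - ε) * prob (cyl t L) < prob (Y ∩ cyl t L) := by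
  classical
  by_contra hcon
  push Not at hcon
  set p := prob Y with hpdef
  have hε' : 0 < ε * p / 4 := by positivity
  obtain ⟨S0, hS0, hlt⟩ := exists_measure_symmDiff_lt_of_generateFrom_isSetRing
    (μ := randomOracle)
    (C := measurableCylinders (fun _ : List Bool => Bool)) isSetRing_measurableCylinders
    ⟨{Set.univ}, Set.countable_singleton _, by
      simpa using univ_mem_measurableCylinders (fun _ : List Bool => Bool), by simp⟩
    generateFrom_measurableCylinders.symm hY (ENNReal.ofReal_pos.2 hε')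
  obtain ⟨D, S', mS, rfl⟩ := (mem_measurableCylinders S0).1 hS0
  set S : Set Oracle := cylinder D S' with hSdef
  have hSm : MeasurableSet S := MeasurableSet.cylinder D mS
  obtain ⟨t, ht⟩ : ∃ t : ℕ, ∀ x ∈ D, x.length ≤ t :=
    ⟨D.sup List.length, fun x hx => Finset.le_sup (f := List.length) hx⟩
  have hloc : Loc {x | x.length ≤ t} S := by
    intro A A' hA
    rw [hSdef, mem_cylinder, mem_cylinder]
    have : D.restrict A = D.restrict A' := by
      ext i
      exact hA i.1 (ht i.1 i.2)
    rw [this]
  have h1 : prob (S ∩ Yᶜ) ≤ ε * p / 4 := by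
    have h1 : randomOracle (S ∩ Yᶜ) ≤ randomOracle (S ∆ Y) := by
      rw [← Set.sdiff_eq]
      exact measure_mono Set.subset_union_left
    have h2 := h1.trans hlt.le
    unfold prob
    rw [measureReal_def]
    exact (ENNReal.toReal_mono ENNReal.ofReal_ne_top h2).trans_eq (ENNReal.toReal_ofReal hε'.le)
  have h2 : prob (Y ∩ Sᶜ) ≤ ε * p / 4 := by
    have h1 : randomOracle (Y ∩ Sᶜ) ≤ randomOracle (S ∆ Y) := by
      rw [← Set.sdiff_eq]
      exact measure_mono Set.subset_union_right
    have h2 := h1.trans hlt.le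
    unfold prob
    rw [measureReal_def]
    exact (ENNReal.toReal_mono ENNReal.ofReal_ne_top h2).trans_eq (ENNReal.toReal_ofReal hε'.le)
  have h3 : prob (Y ∩ S) ≤ (1 - ε) * prob S := by
    have e1 := prob_inter_eq_sum hloc hY
    have e2 := prob_inter_eq_sum hloc (Y := Set.univ) MeasurableSet.univ
    simp only [Set.univ_inter] at e2
    rw [e1, e2, Finset.mul_sum]
    exact Finset.sum_le_sum fun l _ => hcon t l
  have h4 := M2.prob_inter_add_compl Y hSm
  have h5 := M2.prob_inter_add_compl S hY
  rw [Set.inter_comm S Y] at h5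
  have h6 : p - ε * p / 4 ≤ prob S := by
    have : 0 ≤ prob (S ∩ Yᶜ) := M2.prob_nonneg _
    linarith
  have h7 : ε * prob S ≤ ε * p / 4 := by nlinarith
  have h8 : prob S ≤ p / 4 := by
    have : ε * prob S ≤ ε * (p / 4) := by linarith
    exact le_of_mul_le_mul_left this hε
  nlinarith

/-- a set of oracles of positive outer measure nearly fills some cylinder -/
theorem density {X : Set Oracle} (hX : randomOracle X ≠ 0) {ε : ℝ} (hε : 0 < ε) (hε1 : ε < 1) :
    ∃ (t : ℕ) (L : List (List Bool)), ∀ Z : Set Oracle, MeasurableSet Z → X ∩ cyl t L ⊆ Z →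
      (1 - ε) * prob (cyl t L) < prob Z := by
  set Y := toMeasurable randomOracle X with hYdef
  have hY : MeasurableSet Y := measurableSet_toMeasurable _ _
  have hp : 0 < prob Y := by
    unfold prob
    rw [measureReal_def, ENNReal.toReal_pos_iff]
    rw [hYdef, measure_toMeasurable]
    exact ⟨pos_iff_ne_zero.2 hX, measure_lt_top _ _⟩
  obtain ⟨t, L, h⟩ := density_meas hY hp hε hε1
  refine ⟨t, L, fun Z hZ hXZ => h.trans_le ?_⟩
  have h1 : randomOracle (Y ∩ cyl t L) = randomOracle (X ∩ cyl t L) :=
    Measure.measure_toMeasurable_inter (measurableSet_cyl t L) (measure_ne_top _ _)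
  unfold prob
  rw [measureReal_def, measureReal_def, h1]
  exact ENNReal.toReal_mono (measure_ne_top _ _) (measure_mono hXZ)

end Pool.Agent.J6H54.RO
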