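import Pool.Agent.J6H54.RO.Key
import Pool.Agent.H628R3.RO.G1

/-!
# The key inequality for proof systems of `NP` sets and for search problems

The translators are countably many; at stage `n` the first few of them are considered.
-/

set_option autoImplicit false

namespace Pool.Agent.J6H54.RO

open MeasureTheory Filter Pool.Agent.NPC Pool.Agent.H628R3.RO

/-- Planting hits elsewhere does not help `h` to find proofs in the system `M`. -/
theorem hkey_S (M h : Alg) : ∃ P : Polynomial ℕ, ∀ n j, P.eval n ≤ 2 ^ n → ∀ B ∈ BadS n j,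
    B ∉ ErrP M n j → ∃ T : Finset Cand, T.card ≤ P.eval n ∧ ∀ hh ⊆ blkS n j, Disjoint hh T →
      plant (allSpots n hh) B ∉ GoodS M h n j := by
  obtain ⟨qM, hqM⟩ := M.out_local
  obtain ⟨qh, hqh⟩ := h.out_local
  obtain ⟨bh, hbh⟩ := h.out_length
  refine ⟨(h.p + M.p.comp bh + bh).comp (Polynomial.X + 1), fun n j hb B _ hBE => ?_⟩
  simp only [Polynomial.eval_comp, Polynomial.eval_add, Polynomial.eval_X,
    Polynomial.eval_one] at hb ⊢
  have hlen : (true :: List.replicate n true).length = n + 1 := by simp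
  obtain ⟨Q1, hQ1, -, hQ1'⟩ := hqh B (true :: List.replicate n true)
  rw [hlen] at hQ1
  rcases ho : h.out B (true :: List.replicate n true) with _ | u
  · obtain ⟨T, hT1, hT2⟩ := touched n (blkS n j) Q1
    refine ⟨T, by omega, fun hh hsub hd => ?_⟩
    rintro ⟨u, hu, -⟩
    rw [hQ1' _ (hT2 hh hsub hd B), ho] at hu
    simp at hu
  · obtain ⟨Q2, hQ2, -, hQ2'⟩ := hqM B u
    have hul := hbh B _ u ho
    rw [hlen] at hul
    obtain ⟨T, hT1, hT2⟩ := touched n (blkS n j) (Q1 ∪ Q2)
    have h3 := Finset.card_union_le Q1 Q2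
    have h4 := eval_mono M.p hul
    refine ⟨T, by omega, fun hh hsub hd => ?_⟩
    rintro ⟨v, hv, hv'⟩
    rw [hQ1' _ (fun q hq => hT2 hh hsub hd B q (Finset.mem_union_left _ hq)), ho] at hv
    simp only [Option.some.injEq] at hv
    subst hv
    rw [hQ2' _ (fun q hq => hT2 hh hsub hd B q (Finset.mem_union_right _ hq))] at hv'
    exact hBE ⟨u, by omega, hv'⟩

/-- Planting hits elsewhere does not help a reduction to the search problem given by `V`. -/
theorem hkey_F (V : Alg) (p : Polynomial ℕ) (r : Alg × Alg) : ∃ P : Polynomial ℕ, ∀ n j,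
    P.eval n ≤ 2 ^ n → ∀ B ∈ BadS n j,
    B ∉ ErrF V p n → ∃ T : Finset Cand, T.card ≤ P.eval n ∧ ∀ hh ⊆ blkS n j, Disjoint hh T →
      plant (allSpots n hh) B ∉ GoodF V p r n j := by
  obtain ⟨q1, hq1⟩ := r.1.out_local
  obtain ⟨q2, hq2⟩ := r.2.out_local
  obtain ⟨qV, hqV⟩ := V.out_local
  obtain ⟨bx, hbx⟩ := r.1.out_length
  set PV : Polynomial ℕ := V.p.comp (Polynomial.C 2 * bx + Polynomial.C 1 + p.comp bx) with hPV
  set PG : Polynomial ℕ := r.2.p.comp (Polynomial.C 2 * Polynomial.X + Polynomial.C 1 +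
    p.comp bx) with hPG
  refine ⟨r.1.p + PV + PG + bx + 1, fun n j hb B hB hBE => ?_⟩
  simp only [hPV, hPG, Polynomial.eval_comp, Polynomial.eval_add, Polynomial.eval_X,
    Polynomial.eval_one, Polynomial.eval_mul, Polynomial.eval_C] at hb ⊢
  have hlen : (List.replicate n true).length = n := by simp
  obtain ⟨Q1, hQ1, -, hQ1'⟩ := hq1 B (List.replicate n true)
  rw [hlen] at hQ1
  rcases ho : r.1.out B (List.replicate n true) with _ | x
  · obtain ⟨T, hT1, hT2⟩ := touched n (blkS n j) Q1
    refine ⟨T, by omega, fun hh hsub hd => ?_⟩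
    rintro ⟨x, hx, -⟩
    rw [hQ1' _ (hT2 hh hsub hd B), ho] at hx
    simp at hx
  · have hxl := hbx B _ x ho
    rw [hlen] at hxl
    have hex : ∃ y : List Bool, y.length ≤ p.eval x.length ∧
        V.out B (pairBits x y) = some [true] := by
      by_contra hcon
      push Not at hcon
      exact hBE ⟨x, by omega, hcon⟩
    obtain ⟨y, hy, hVy⟩ := hex
    have hyl : y.length ≤ p.eval (bx.eval n) := hy.trans (eval_mono p hxl)
    obtain ⟨Q2, hQ2, -, hQ2'⟩ := hqV B (pairBits x y)
    obtain ⟨Q3, hQ3, -, hQ3'⟩ := hq2 B (pairBits (List.replicate n true) y)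
    rw [length_pairBits] at hQ2 hQ3
    rw [hlen] at hQ3
    obtain ⟨T, hT1, hT2⟩ := touched n (blkS n j) (Q1 ∪ Q2 ∪ Q3)
    have h3 := Finset.card_union_le (Q1 ∪ Q2) Q3
    have h3' := Finset.card_union_le Q1 Q2
    have h4 : V.p.eval (2 * x.length + 1 + y.length) ≤
        V.p.eval (2 * bx.eval n + 1 + p.eval (bx.eval n)) := eval_mono V.p (by omega)
    have h5 : r.2.p.eval (2 * n + 1 + y.length) ≤
        r.2.p.eval (2 * n + 1 + p.eval (bx.eval n)) := eval_mono r.2.p (by omega)
    -- the candidate which is the output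
    obtain ⟨κ₀, hκ₀⟩ : ∃ κ₀ : Cand, ∀ (c : ℕ) (w : List Bool),
        r.2.out B (pairBits (List.replicate n true) y) = some (candStr c w) → (c, w) = κ₀ := by
      by_cases hex : ∃ (c : ℕ) (w : List Bool),
          r.2.out B (pairBits (List.replicate n true) y) = some (candStr c w)
      · obtain ⟨c, w, hcw⟩ := hex
        refine ⟨(c, w), fun c' w' h' => ?_⟩
        rw [hcw] at h'
        simp only [Option.some.injEq] at h'
        have e1 : c = c' := by rw [← lvl_candStr c w, h', lvl_candStr]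
        have e2 : w = w' := by
          rw [← drop_candStr c w, h', e1, drop_candStr]
        rw [e1, e2]
      · exact ⟨(0, []), fun c w h' => absurd ⟨c, w, h'⟩ hex⟩
    refine ⟨insert κ₀ T, ?_, fun hh hsub hd => ?_⟩
    · have := Finset.card_insert_le κ₀ T
      omega
    · rw [Finset.disjoint_insert_right] at hd
      rintro ⟨x', hx', hall⟩
      rw [hQ1' _ (fun q hq => hT2 hh hsub hd.2 B q (Finset.mem_union_left _
        (Finset.mem_union_left _ hq))), ho] at hx'
      simp only [Option.some.injEq] at hx'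
      subst hx'
      have hV' : V.out (plant (allSpots n hh) B) (pairBits x y) = some [true] := by
        rw [hQ2' _ (fun q hq => hT2 hh hsub hd.2 B q (Finset.mem_union_left _
          (Finset.mem_union_right _ hq))), hVy]
      obtain ⟨c, w, hc, hw, hout, hhit⟩ := hall y hy hV'
      rw [hQ3' _ (fun q hq => hT2 hh hsub hd.2 B q (Finset.mem_union_right _ hq))] at hout
      have hκ := hκ₀ c w hout
      have h6 : (c, w) ∉ hh := by
        rw [hκ]
        exact hd.1
      have h7 : Hit n (c, w) B := (M2.hit_plant h6 B).1 hhit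
      refine hB (c, w) ?_ h7
      exact mem_cands.2 ⟨Finset.mem_range.2 hc, hw⟩

/-- The key inequality for countably many translators. -/
theorem key_union {E : ℕ → ℕ → Set Oracle} {G : ℕ → ℕ → ℕ → Set Oracle} {P : ℕ → Polynomial ℕ}
    (locE : ∀ n j, ∃ r, Loc {x | x.length ≤ r} (E n j))
    (locG : ∀ l n j, ∃ r, Loc {x | x.length ≤ r} (G l n j))
    (hk : ∀ l n j, (P l).eval n ≤ 2 ^ n → ∀ B ∈ BadS n j, B ∉ E n j → ∃ T : Finset Cand,
      T.card ≤ (P l).eval n ∧ ∀ hh ⊆ blkS n j, Disjoint hh T →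
        plant (allSpots n hh) B ∉ G l n j) :
    ∃ F : ℕ → Finset ℕ, (∀ l, ∀ᶠ n in atTop, l ∈ F n) ∧
      (∀ n j, MeasurableSet {A : Oracle | ∃ l ∈ F n, A ∈ G l n j}) ∧
      ∀ n ≥ 1, ∀ j ≤ n, ∀ (t : ℕ) (L : List (List Bool)), t < n →
        4 * prob (cyl t L ∩ (BadS n j ∩ E n j)) < prob (cyl t L ∩ BadS n j) →
        prob (cyl t L ∩ {A : Oracle | ∃ l ∈ F n, A ∈ G l n j} ∩ (BadS n j)ᶜ) ≤
          5 / 16 * prob (cyl t L) := by
  classical
  choose rG hG using locG
  set F : ℕ → Finset ℕ := fun n =>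
    (Finset.range n).filter (fun l => 32 * (n * (P l).eval n) ≤ 2 ^ n) with hF
  have hloc : ∀ n j, Loc {x | x.length ≤ (F n).sup (fun l => rG l n j)}
      {A : Oracle | ∃ l ∈ F n, A ∈ G l n j} := by
    intro n j A A' hA
    simp only [Set.mem_ofPred_eq]
    refine exists_congr fun l => and_congr_right fun hl => ?_
    exact hG l n j A A' fun x hx =>
      hA x (le_trans hx (Finset.le_sup (f := fun l => rG l n j) hl))
  refine ⟨F, fun l => ?_, fun n j => measurableSet_of_loc (finite_length_le _) (hloc n j), ?_⟩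
  · obtain ⟨N, hN⟩ := poly_le_two_pow (Polynomial.X * P l)
    filter_upwards [eventually_ge_atTop N, eventually_gt_atTop l] with n hn hn'
    rw [hF]
    refine Finset.mem_filter.2 ⟨Finset.mem_range.2 hn', ?_⟩
    have := hN n hn
    rwa [Polynomial.eval_mul, Polynomial.eval_X] at this
  · intro n hn j hj t L ht hchk
    obtain ⟨rE, hE⟩ := locE n j
    refine key_S_gen (hloc n j) hE hn hj ht ?_ hchk
    intro B hB hBE
    have hch : ∀ l ∈ F n, ∃ T : Finset Cand, T.card ≤ (P l).eval n ∧ ∀ hh ⊆ blkS n j,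
        Disjoint hh T → plant (allSpots n hh) B ∉ G l n j := by
      intro l hl
      refine hk l n j ?_ B hB hBE
      have h1 := (Finset.mem_filter.1 hl).2
      have h2 : (P l).eval n ≤ n * (P l).eval n := Nat.le_mul_of_pos_left _ (by omega)
      omega
    choose! T hT1 hT2 using hch
    refine ⟨(F n).biUnion T, ?_, ?_⟩
    · have h1 : ((F n).biUnion T).card ≤ ∑ l ∈ F n, (P l).eval n :=
        Finset.card_biUnion_le.trans (Finset.sum_le_sum fun l hl => hT1 l hl)
      have h2 : 32 * (n * ∑ l ∈ F n, (P l).eval n) ≤ n * 2 ^ n := by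
        rw [Finset.mul_sum, Finset.mul_sum]
        calc ∑ l ∈ F n, 32 * (n * (P l).eval n) ≤ ∑ _l ∈ F n, 2 ^ n :=
              Finset.sum_le_sum fun l hl => (Finset.mem_filter.1 hl).2
          _ = (F n).card * 2 ^ n := by simp
          _ ≤ n * 2 ^ n := by
              apply Nat.mul_le_mul_right
              calc (F n).card ≤ (Finset.range n).card := Finset.card_filter_le _ _
                _ = n := Finset.card_range n
      have h3 : n * (32 * ∑ l ∈ F n, (P l).eval n) ≤ n * 2 ^ n := by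
        calc n * (32 * ∑ l ∈ F n, (P l).eval n) = 32 * (n * ∑ l ∈ F n, (P l).eval n) := by ring
          _ ≤ _ := h2
      have h4 : 32 * ∑ l ∈ F n, (P l).eval n ≤ 2 ^ n :=
        Nat.le_of_mul_le_mul_left h3 (by omega)
      omega
    · rintro hh hsub hd ⟨l, hl, hl'⟩
      refine hT2 l hl hh hsub ?_ hl'
      exact Finset.disjoint_of_subset_right (Finset.subset_biUnion_of_mem T hl) hd

end Pool.Agent.J6H54.RO
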