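import Pool.Agent.J6H54.RO.Dens
import Pool.Agent.H628R3.RO.Lev
import Pool.Agent.H628R3.RO.D2

/-!
# The scheme: the probability argument
-/

set_option autoImplicit false

namespace Pool.Agent.J6H54.RO

open MeasureTheory Filter Pool.Agent.NPC Pool.Agent.H628R3.RO

/-! ## The schedule -/

theorem Gt_ge (b : Polynomial ℕ) (n : ℕ) : 4 * (b.eval (2 ^ n) + 1) ≤ Gt b n := by
  unfold Gt
  generalize b.eval (2 ^ n) = y
  have h1 : y + 2 ≤ 2 ^ (y + 1) := Nat.lt_two_pow_self
  have h2 : 2 ^ (y + 2) ≤ 2 ^ (2 ^ (y + 1)) := Nat.pow_le_pow_right (by norm_num) h1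
  have h3 : y + 1 ≤ 2 ^ y := Nat.lt_two_pow_self
  have h4 : 2 ^ (y + 2) = 4 * 2 ^ y := by ring
  have h5 : 4 * (y + 1) ≤ 2 ^ (2 ^ (y + 1)) := by
    rw [h4] at h2
    exact (Nat.mul_le_mul_left 4 h3).trans h2
  exact h5.trans ((Nat.le_add_right _ n).trans (Nat.le_add_right _ 1))

theorem lt_Gt (b : Polynomial ℕ) (n : ℕ) : n < Gt b n :=
  Nat.lt_succ_of_le (Nat.le_add_left n _)

theorem Tt_succ (b : Polynomial ℕ) (t i : ℕ) : Tt b t (i + 1) = Gt b (Tt b t i) := rfl

theorem Tt_strictMono (b : Polynomial ℕ) (t : ℕ) : StrictMono (Tt b t) :=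
  strictMono_nat_of_lt_succ fun _ => lt_Gt b _

theorem Tt_ge (b : Polynomial ℕ) (t i : ℕ) : t + 4 + i ≤ Tt b t i := by
  induction i with
  | zero => exact le_rfl
  | succ i ih =>
    have := lt_Gt b (Tt b t i)
    rw [Tt_succ]
    omega

section

variable {Bad Err : ℕ → ℕ → Set Oracle} {t : ℕ} {L : List (List Bool)}

theorem lev_le (T : ℕ → ℕ) (i : ℕ) : lev Bad Err t L T i ≤ 4 + i := by
  induction i with
  | zero => exact le_rfl
  | succ i ih =>
    rw [lev]
    have : (chk Bad Err t L (T i) (lev Bad Err t L T i)).toNat ≤ 1 := Bool.toNat_le _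
    omega

theorem four_le_lev (T : ℕ → ℕ) (i : ℕ) : 4 ≤ lev Bad Err t L T i := by
  induction i with
  | zero => exact le_rfl
  | succ i ih =>
    rw [lev]
    omega

end

/-! ## Measure -/

theorem prob_le_iff {S : Set Oracle} {c : ℝ} (hc : 0 ≤ c) :
    prob S ≤ c ↔ randomOracle S ≤ ENNReal.ofReal c := by
  unfold prob
  rw [measureReal_def, ENNReal.le_ofReal_iff_toReal_le (measure_ne_top _ _) hc]

theorem prob_iUnion_le {S : ℕ → Set Oracle} (hm : Monotone S) {c : ℝ}
    (h : ∀ n, prob (S n) ≤ c) : prob (⋃ n, S n) ≤ c := by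
  have hc : 0 ≤ c := (M2.prob_nonneg _).trans (h 0)
  rw [prob_le_iff hc, hm.measure_iUnion]
  exact iSup_le fun n => (prob_le_iff hc).1 (h n)

/-- The assumptions on the bad events, the error events and the events to be excluded. -/
structure Scheme (Bad Err Good : ℕ → ℕ → Set Oracle) (b : Polynomial ℕ) : Prop where
  le_eval : ∀ m, m ≤ b.eval m
  locErr : ∀ n j, Loc {x | x.length ≤ b.eval (2 ^ n)} (Err n j)
  locBad : ∀ n j, j ≤ n → Loc {x | n < x.length ∧ x.length ≤ 3 * n + 2} (Bad n j)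
  badLe : ∀ n j, prob (Bad n j) ≤ (1 / 2) ^ j
  badGe : ∀ j, ∃ c > 0, ∀ n ≥ 1, c ≤ prob (Bad n j)
  goodMeas : ∀ n j, MeasurableSet (Good n j)
  key : ∃ N, ∀ n ≥ N, ∀ j ≤ n, ∀ (t : ℕ) (L : List (List Bool)), t < n →
    4 * prob (cyl t L ∩ (Bad n j ∩ Err n j)) < prob (cyl t L ∩ Bad n j) →
    prob (cyl t L ∩ Good n j ∩ (Bad n j)ᶜ) ≤ 5 / 16 * prob (cyl t L)

namespace Scheme

variable {Bad Err Good : ℕ → ℕ → Set Oracle} {b : Polynomial ℕ} {t : ℕ} {L : List (List Bool)}

theorem finite_blk (n : ℕ) : {x : List Bool | n < x.length ∧ x.length ≤ 3 * n + 2}.Finite :=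
  (finite_length_le (3 * n + 2)).subset fun _ hx => hx.2

theorem measBad (h : Scheme Bad Err Good b) {n j : ℕ} (hj : j ≤ n) : MeasurableSet (Bad n j) :=
  measurableSet_of_loc (finite_blk n) (h.locBad n j hj)

theorem measErr (h : Scheme Bad Err Good b) (n j : ℕ) : MeasurableSet (Err n j) :=
  measurableSet_of_loc (finite_length_le _) (h.locErr n j)

theorem lev_le_Tt (i : ℕ) : lev Bad Err t L (Tt b t) i ≤ Tt b t i := by
  have h1 := lev_le (Bad := Bad) (Err := Err) (t := t) (L := L) (Tt b t) i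
  have h2 := Tt_ge b t i
  omega

theorem Tt_bound (h : Scheme Bad Err Good b) {l i : ℕ} (hl : l < i) :
    3 * Tt b t l + 2 ≤ Tt b t i ∧ b.eval (2 ^ (Tt b t l)) ≤ Tt b t i := by
  have h1 : Tt b t (l + 1) ≤ Tt b t i := (Tt_strictMono b t).monotone hl
  rw [Tt_succ] at h1
  have h2 := Gt_ge b (Tt b t l)
  have h3 := h.le_eval (2 ^ (Tt b t l))
  have h4 : Tt b t l < 2 ^ (Tt b t l) := Nat.lt_two_pow_self
  omega

/-- the event that an error shows up before stage `n` -/
def U (Bad Err : ℕ → ℕ → Set Oracle) (b : Polynomial ℕ) (t : ℕ) (L : List (List Bool)) (n : ℕ) :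
    Set Oracle :=
  {A | A ∈ cyl t L ∧ ∃ l < n, A ∈ Bad (Tt b t l) (lev Bad Err t L (Tt b t) l) ∧
    A ∈ Err (Tt b t l) (lev Bad Err t L (Tt b t) l)}

theorem locU (h : Scheme Bad Err Good b) (n : ℕ) :
    Loc {x | x.length ≤ Tt b t n} (U Bad Err b t L n) := by
  intro A A' hA
  unfold U
  simp only [Set.mem_ofPred_eq]
  have h0 : t ≤ Tt b t n := by
    have := Tt_ge b t n
    omega
  have h1 : A ∈ cyl t L ↔ A' ∈ cyl t L := loc_cyl t L A A' fun x hx => hA x (le_trans hx h0)
  rw [h1]
  refine and_congr_right fun _ => exists_congr fun l => and_congr_right fun hl => ?_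
  obtain ⟨h2, h3⟩ := h.Tt_bound (t := t) hl
  refine and_congr ?_ ?_
  · exact h.locBad _ _ (lev_le_Tt l) A A' fun x hx => hA x (hx.2.trans h2)
  · exact h.locErr _ _ A A' fun x hx => hA x (le_trans hx h3)

theorem measU (h : Scheme Bad Err Good b) (n : ℕ) : MeasurableSet (U Bad Err b t L n) :=
  measurableSet_of_loc (finite_length_le _) (h.locU n)

theorem disj (n : ℕ) : Disjoint {x : List Bool | x.length ≤ n}
    {x : List Bool | n < x.length ∧ x.length ≤ 3 * n + 2} := by
  rw [Set.disjoint_left]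
  intro x hx hx'
  simp only [Set.mem_ofPred_eq] at hx hx'
  omega

theorem prob_U_inter (h : Scheme Bad Err Good b) (n : ℕ) {j : ℕ} (hj : j ≤ Tt b t n) :
    prob (U Bad Err b t L n ∩ Bad (Tt b t n) j) =
      prob (U Bad Err b t L n) * prob (Bad (Tt b t n) j) :=
  prob_inter_of_disjoint (finite_length_le _) (finite_blk _) (disj _) (h.locU n)
    (h.locBad _ _ hj)

theorem prob_cyl_inter (h : Scheme Bad Err Good b) {n j : ℕ} (hj : j ≤ n) (ht : t ≤ n) :
    prob (cyl t L ∩ Bad n j) = prob (cyl t L) * prob (Bad n j) :=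
  prob_inter_of_disjoint (finite_length_le t) (finite_blk _)
    ((disj n).mono_left fun _ hx => le_trans hx ht) (loc_cyl t L) (h.locBad _ _ hj)

open Classical in
/-- the sum over the unsuccessful stages -/
theorem sum_fail (h : Scheme Bad Err Good b)
    (hU : ∀ n, prob (U Bad Err b t L n) ≤ 1 / 20 * prob (cyl t L)) (n : ℕ) :
    (∑ i ∈ Finset.range n,
      if chk Bad Err t L (Tt b t i) (lev Bad Err t L (Tt b t) i) = true then 0 else
        prob (Bad (Tt b t i) (lev Bad Err t L (Tt b t) i))) * (1 / 5 * prob (cyl t L)) ≤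
      prob (U Bad Err b t L n) := by
  induction n with
  | zero =>
    simp only [Finset.range_zero, Finset.sum_empty, zero_mul]
    exact M2.prob_nonneg _
  | succ n ih =>
    rw [Finset.sum_range_succ, add_mul]
    set lv := lev Bad Err t L (Tt b t) n with hlv
    set Bn := Bad (Tt b t n) lv with hBn
    set En := Err (Tt b t n) lv with hEn
    have hj : lv ≤ Tt b t n := lev_le_Tt n
    have hBm : MeasurableSet Bn := h.measBad hj
    have hEm : MeasurableSet En := h.measErr _ _
    have hmono : U Bad Err b t L n ⊆ U Bad Err b t L (n + 1) := by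
      rintro A ⟨h1, l, hl, h2⟩
      exact ⟨h1, l, by omega, h2⟩
    split_ifs with hc
    · rw [zero_mul, add_zero]
      exact ih.trans (M2.prob_mono hmono)
    · have hc' : prob (cyl t L ∩ Bn) ≤ 4 * prob (cyl t L ∩ (Bn ∩ En)) := by
        rw [chk, decide_eq_true_eq, not_lt] at hc
        exact hc
      have ht : t ≤ Tt b t n := by
        have := Tt_ge b t n
        omega
      rw [h.prob_cyl_inter hj ht] at hc'
      have h1 : prob (U Bad Err b t L n) + prob ((cyl t L ∩ (Bn ∩ En)) ∩ (U Bad Err b t L n)ᶜ) ≤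
          prob (U Bad Err b t L (n + 1)) := by
        have h2 := M2.prob_inter_add_compl (U Bad Err b t L (n + 1)) (h.measU (t := t) (L := L) n)
        rw [← h2]
        refine add_le_add (M2.prob_mono fun A hA => ⟨hmono hA, hA⟩) (M2.prob_mono ?_)
        rintro A ⟨⟨h3, h4⟩, h5⟩
        exact ⟨⟨h3, n, by omega, h4⟩, h5⟩
      have h2 := M2.prob_inter_add_compl (cyl t L ∩ (Bn ∩ En)) (h.measU (t := t) (L := L) n)
      have h3 : prob ((cyl t L ∩ (Bn ∩ En)) ∩ U Bad Err b t L n) ≤
          prob (U Bad Err b t L n) * prob Bn := by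
        rw [← h.prob_U_inter n hj]
        refine M2.prob_mono ?_
        rintro A ⟨⟨_, h4, _⟩, h5⟩
        exact ⟨h5, h4⟩
      have h4 : prob (U Bad Err b t L n) * prob Bn ≤ 1 / 20 * prob (cyl t L) * prob Bn :=
        mul_le_mul_of_nonneg_right (hU n) (M2.prob_nonneg _)
      nlinarith

open Classical in
/-- the sum over the successful stages -/
theorem sum_succ (n : ℕ) :
    (∑ i ∈ Finset.range n,
      if chk Bad Err t L (Tt b t i) (lev Bad Err t L (Tt b t) i) = true then
        (1 / 2 : ℝ) ^ (lev Bad Err t L (Tt b t) i) else 0) +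
      2 * (1 / 2 : ℝ) ^ (lev Bad Err t L (Tt b t) n) ≤ 1 / 8 := by
  induction n with
  | zero => norm_num [lev]
  | succ n ih =>
    rw [Finset.sum_range_succ, lev]
    split_ifs with hc
    · rw [hc, Bool.toNat_true, pow_succ]
      linarith
    · have hc' : chk Bad Err t L (Tt b t n) (lev Bad Err t L (Tt b t) n) = false := by
        simpa using hc
      rw [hc', Bool.toNat_false, add_zero, add_zero]
      exact ih

open Classical in
theorem fail_le (h : Scheme Bad Err Good b)
    (hU : ∀ n, prob (U Bad Err b t L n) ≤ 1 / 20 * prob (cyl t L)) (n : ℕ) :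
    (∑ i ∈ Finset.range n,
      if chk Bad Err t L (Tt b t i) (lev Bad Err t L (Tt b t) i) = true then 0 else
        prob (Bad (Tt b t i) (lev Bad Err t L (Tt b t) i))) ≤ 1 / 4 := by
  have h1 := (h.sum_fail hU n).trans (hU n)
  have h2 := prob_cyl_pos t L
  set s := ∑ i ∈ Finset.range n,
      if chk Bad Err t L (Tt b t i) (lev Bad Err t L (Tt b t) i) = true then 0 else
        prob (Bad (Tt b t i) (lev Bad Err t L (Tt b t) i)) with hs
  by_contra hcon
  push Not at hcon
  have h3 : 1 / 4 * (1 / 5 * prob (cyl t L)) < s * (1 / 5 * prob (cyl t L)) :=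
    mul_lt_mul_of_pos_right hcon (by positivity)
  linarith

theorem sum_bad_le (h : Scheme Bad Err Good b)
    (hU : ∀ n, prob (U Bad Err b t L n) ≤ 1 / 20 * prob (cyl t L)) (n : ℕ) :
    (∑ i ∈ Finset.range n, prob (Bad (Tt b t i) (lev Bad Err t L (Tt b t) i))) ≤ 3 / 8 := by
  classical
  have h1 := h.fail_le hU n
  have h2 := sum_succ (Bad := Bad) (Err := Err) (b := b) (t := t) (L := L) n
  have h3 : (0 : ℝ) ≤ 2 * (1 / 2 : ℝ) ^ (lev Bad Err t L (Tt b t) n) := by positivity
  have h4 : (∑ i ∈ Finset.range n, prob (Bad (Tt b t i) (lev Bad Err t L (Tt b t) i))) ≤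
      (∑ i ∈ Finset.range n,
        if chk Bad Err t L (Tt b t i) (lev Bad Err t L (Tt b t) i) = true then 0 else
          prob (Bad (Tt b t i) (lev Bad Err t L (Tt b t) i))) +
      ∑ i ∈ Finset.range n,
        if chk Bad Err t L (Tt b t i) (lev Bad Err t L (Tt b t) i) = true then
          (1 / 2 : ℝ) ^ (lev Bad Err t L (Tt b t) i) else 0 := by
    rw [← Finset.sum_add_distrib]
    refine Finset.sum_le_sum fun i _ => ?_
    split_ifs with hc
    · rw [zero_add]
      exact h.badLe _ _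
    · rw [add_zero]
  linarith

/-- a bad event happens before stage `n` -/
def V (Bad Err : ℕ → ℕ → Set Oracle) (b : Polynomial ℕ) (t : ℕ) (L : List (List Bool)) (n : ℕ) :
    Set Oracle :=
  {A | A ∈ cyl t L ∧ ∃ l < n, A ∈ Bad (Tt b t l) (lev Bad Err t L (Tt b t) l)}

theorem prob_V_le (h : Scheme Bad Err Good b)
    (hU : ∀ n, prob (U Bad Err b t L n) ≤ 1 / 20 * prob (cyl t L)) (n : ℕ) :
    prob (V Bad Err b t L n) ≤ 3 / 8 * prob (cyl t L) := by
  have h1 : prob (V Bad Err b t L n) ≤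
      (∑ i ∈ Finset.range n, prob (Bad (Tt b t i) (lev Bad Err t L (Tt b t) i))) *
        prob (cyl t L) := by
    induction n with
    | zero =>
      have : V Bad Err b t L 0 = ∅ := by
        ext A
        simp [V]
      rw [this]
      simp [prob]
    | succ n ih =>
      rw [Finset.sum_range_succ, add_mul]
      have h2 : V Bad Err b t L (n + 1) ⊆ V Bad Err b t L n ∪
          (cyl t L ∩ Bad (Tt b t n) (lev Bad Err t L (Tt b t) n)) := by
        rintro A ⟨h3, l, hl, h4⟩
        rcases Nat.lt_succ_iff_lt_or_eq.1 hl with h5 | h5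
        · exact Or.inl ⟨h3, l, h5, h4⟩
        · subst h5
          exact Or.inr ⟨h3, h4⟩
      have ht : t ≤ Tt b t n := by
        have := Tt_ge b t n
        omega
      have h3 := h.prob_cyl_inter (t := t) (L := L) (lev_le_Tt (Bad := Bad) (Err := Err)
        (b := b) (t := t) (L := L) n) ht
      calc prob (V Bad Err b t L (n + 1)) ≤ prob (V Bad Err b t L n ∪
            (cyl t L ∩ Bad (Tt b t n) (lev Bad Err t L (Tt b t) n))) := M2.prob_mono h2
        _ ≤ _ := M2.prob_union_le _ _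
        _ ≤ _ := by rw [h3, mul_comm (prob (cyl t L))]; exact add_le_add ih le_rfl
  exact h1.trans (mul_le_mul_of_nonneg_right (h.sum_bad_le hU n) (prob_cyl_pos t L).le)

/-- there are arbitrarily large successful stages -/
theorem exists_chk (h : Scheme Bad Err Good b)
    (hU : ∀ n, prob (U Bad Err b t L n) ≤ 1 / 20 * prob (cyl t L)) (m : ℕ) :
    ∃ i ≥ m, chk Bad Err t L (Tt b t i) (lev Bad Err t L (Tt b t) i) = true := by
  classical
  by_contra hcon
  push Not at hcon
  have hlev : ∀ i ≥ m, lev Bad Err t L (Tt b t) i = lev Bad Err t L (Tt b t) m := by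
    intro i hi
    induction i, hi using Nat.le_induction with
    | base => rfl
    | succ i hi ih =>
      rw [lev]
      have : chk Bad Err t L (Tt b t i) (lev Bad Err t L (Tt b t) i) = false := by
        simpa using hcon i hi
      rw [this, ih]
      simp
  obtain ⟨c, hc, hc'⟩ := h.badGe (lev Bad Err t L (Tt b t) m)
  obtain ⟨k, hk⟩ := exists_nat_gt (1 / 4 / c)
  have h1 := h.fail_le hU (m + k)
  rw [Finset.sum_range_add] at h1
  have h2 : (k : ℝ) * c ≤ ∑ x ∈ Finset.range k,
      if chk Bad Err t L (Tt b t (m + x)) (lev Bad Err t L (Tt b t) (m + x)) = true then 0 else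
        prob (Bad (Tt b t (m + x)) (lev Bad Err t L (Tt b t) (m + x))) := by
    have : (k : ℝ) * c = ∑ _x ∈ Finset.range k, c := by simp
    rw [this]
    refine Finset.sum_le_sum fun x _ => ?_
    rw [if_neg (hcon (m + x) (by omega)), hlev (m + x) (by omega)]
    apply hc'
    have := Tt_ge b t (m + x)
    omega
  have h3 : 0 ≤ ∑ i ∈ Finset.range m,
      if chk Bad Err t L (Tt b t i) (lev Bad Err t L (Tt b t) i) = true then 0 else
        prob (Bad (Tt b t i) (lev Bad Err t L (Tt b t) i)) := by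
    refine Finset.sum_nonneg fun i _ => ?_
    split_ifs
    · exact le_rfl
    · exact M2.prob_nonneg _
  have h4 : 1 / 4 < (k : ℝ) * c := by
    rwa [div_lt_iff₀ hc] at hk
  linarith

/-- The conclusion: an exceptional set has measure zero. -/
theorem null (h : Scheme Bad Err Good b) {X : Set Oracle}
    (hX1 : ∀ A ∈ X, ∀ n j, A ∈ Bad n j → A ∉ Err n j)
    (hX2 : ∀ (t : ℕ) (L : List (List Bool)), ∀ A ∈ X,
      (∀ i, A ∉ Bad (Tt b t i) (lev Bad Err t L (Tt b t) i)) →
      ∀ᶠ i in atTop, A ∈ Good (Tt b t i) (lev Bad Err t L (Tt b t) i)) :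
    randomOracle X = 0 := by
  by_contra hX
  obtain ⟨t, L, hd⟩ := density hX (ε := 1 / 20) (by norm_num) (by norm_num)
  have hpos := prob_cyl_pos t L
  have hU : ∀ n, prob (U Bad Err b t L n) ≤ 1 / 20 * prob (cyl t L) := by
    intro n
    have hsub : X ∩ cyl t L ⊆ cyl t L ∩ (U Bad Err b t L n)ᶜ := by
      rintro A ⟨hA, hAc⟩
      refine ⟨hAc, ?_⟩
      rintro ⟨-, l, -, h1, h2⟩
      exact hX1 A hA _ _ h1 h2
    have h1 := hd _ ((measurableSet_cyl t L).inter (h.measU n).compl) hsub
    have h2 := M2.prob_inter_add_compl (cyl t L) (h.measU (t := t) (L := L) n)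
    have h3 : cyl t L ∩ U Bad Err b t L n = U Bad Err b t L n := by
      ext A
      exact ⟨fun h => h.2, fun h => ⟨h.1, h⟩⟩
    rw [h3] at h2
    linarith
  obtain ⟨N, hN⟩ := h.key
  set Gd : ℕ → Set Oracle := fun i => cyl t L ∩ Good (Tt b t i) (lev Bad Err t L (Tt b t) i) ∩
    (Bad (Tt b t i) (lev Bad Err t L (Tt b t) i))ᶜ with hGd
  have hGm : ∀ i, MeasurableSet (Gd i) := fun i =>
    ((measurableSet_cyl t L).inter (h.goodMeas _ _)).inter (h.measBad (lev_le_Tt i)).compl
  set W : ℕ → Set Oracle := fun m => ⋂ i ≥ m, Gd i with hW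
  have hWm : ∀ m, MeasurableSet (W m) := fun m =>
    MeasurableSet.iInter fun i => MeasurableSet.iInter fun _ => hGm i
  have hWmono : Monotone W := by
    intro m m' hmm A hA
    simp only [hW, Set.mem_iInter] at hA ⊢
    exact fun i hi => hA i (hmm.trans hi)
  have hWp : ∀ m, prob (W m) ≤ 5 / 16 * prob (cyl t L) := by
    intro m
    obtain ⟨i, hi, hc⟩ := h.exists_chk hU (max m N)
    have hT := Tt_ge b t i
    have h1 : prob (Gd i) ≤ 5 / 16 * prob (cyl t L) := by
      apply hN (Tt b t i) _ _ (lev_le_Tt i) t L (by omega)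
      · rw [chk, decide_eq_true_eq] at hc
        exact hc
      · have : max m N ≤ i := hi
        have := le_max_right m N
        omega
    refine le_trans (M2.prob_mono ?_) h1
    intro A hA
    simp only [hW, Set.mem_iInter] at hA
    exact hA i ((le_max_left m N).trans hi)
  have hVm : ∀ n, MeasurableSet (V Bad Err b t L n) := by
    intro n
    have : V Bad Err b t L n = cyl t L ∩ ⋃ l ∈ Finset.range n,
        Bad (Tt b t l) (lev Bad Err t L (Tt b t) l) := by
      ext A
      simp [V]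
    rw [this]
    exact (measurableSet_cyl t L).inter (Finset.measurableSet_biUnion _ fun l _ =>
      h.measBad (lev_le_Tt l))
  have hVmono : Monotone (V Bad Err b t L) := by
    rintro m m' hmm A ⟨h1, l, hl, h2⟩
    exact ⟨h1, l, hl.trans_le hmm, h2⟩
  have hZm : MeasurableSet ((⋃ n, V Bad Err b t L n) ∪ ⋃ m, W m) :=
    (MeasurableSet.iUnion hVm).union (MeasurableSet.iUnion hWm)
  have hsub : X ∩ cyl t L ⊆ (⋃ n, V Bad Err b t L n) ∪ ⋃ m, W m := by
    rintro A ⟨hA, hAc⟩
    by_cases hb : ∀ i, A ∉ Bad (Tt b t i) (lev Bad Err t L (Tt b t) i)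
    · right
      obtain ⟨m, hm⟩ := eventually_atTop.1 (hX2 t L A hA hb)
      refine Set.mem_iUnion.2 ⟨m, ?_⟩
      simp only [hW, Set.mem_iInter]
      exact fun i hi => ⟨⟨hAc, hm i hi⟩, hb i⟩
    · left
      push Not at hb
      obtain ⟨i, hi⟩ := hb
      exact Set.mem_iUnion.2 ⟨i + 1, hAc, i, by omega, hi⟩
  have h1 := hd _ hZm hsub
  have h2 := M2.prob_union_le (⋃ n, V Bad Err b t L n) (⋃ m, W m)
  have h3 := prob_iUnion_le hVmono (h.prob_V_le hU)
  have h4 := prob_iUnion_le hWmono hWp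
  linarith

end Scheme

end Pool.Agent.J6H54.RO
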